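import Pool.Agent.TH806.LK.Defs

set_option autoImplicit false

/-!
LS project (helper806, MP_112ba8_nt): the local law and the moments for both signs of Hardy's function.

The weights `‖AQ_k‖ ‖AQ_(k-1)‖ ‖DK_u‖²` are nonnegative Dirichlet polynomials of size `exp ((2k-1) x)` near `x = u`, so
the integral of Hardy's function against them is tiny, while the integral of its absolute value is not.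
`AQ` is like `AZ` with `NS K a z = (NC K (a/2) z)²` instead of `NC K a z`, so that `‖AQ_a‖ = ‖AZ_(a/2)‖²`.
-/

namespace Pool.Agent.TH806.LS

open Finset Filter Topology MeasureTheory Complex MonoidAlgebra
open Pool.Agent.W184.NZ
open Pool.Agent.TH806 Pool.Agent.TH806.LK
open Pool.Agent.H306R2.SM (om cl Yf)
open Pool.Agent.H262R4.TM (Rng Ck)

noncomputable section

/-- square of the truncated exponential with half the exponent -/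
def NS (K : ℕ) (a z : ℂ) : ℂ := NC K (a / 2) z ^ 2

/-- the local factor -/
def BFs (K : ℕ) (a b θ₁ θ₂ : ℝ) (z : ℂ) : ℂ :=
  NS K a z * NS K b (starRingEnd ℂ z) * (pf K θ₁ z * pf K θ₂ z)

/-- the local factor with two defects -/
def BEs (K : ℕ) (a θ₁ θ₂ : ℝ) (z : ℂ) : ℂ :=
  NS K a z * NS K a (starRingEnd ℂ z) * (TD K θ₁ z * TD K θ₂ z)

/-- the local factor with the large values -/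
def BBs (K R : ℕ) (a θ₁ θ₂ : ℝ) (z : ℂ) : ℂ := BFs K a a θ₁ θ₂ z * (((‖z‖ / R) ^ (2 * R) : ℝ) : ℂ)

/-- closure properties -/
def P_ALGs : Prop := ∀ (n K R : ℕ) (a b θ₁ θ₂ : ℝ), 1 ≤ n → n + 1 ≤ K → 1 ≤ R → |a| ≤ n → |b| ≤ n →
  |θ₁| ≤ 1 → |θ₂| ≤ 1 →
    EB (4 * K) (n + 1) (BFs K a b θ₁ θ₂) ∧ PB (4 * K + R) (BBs K R a θ₁ θ₂) ∧ PB (4 * K + 2) (BEs K a θ₁ θ₂) ∧
    Sym (BFs K a a θ₁ θ₂) ∧ Sym (BBs K R a θ₁ θ₂) ∧ Sym (BEs K a θ₁ θ₂)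

/-- local estimates -/
def P_LOCs : Prop := ∀ (n : ℕ) (c C : ℝ), 1 ≤ n → 0 ≤ c → ∃ C' : ℝ, 0 < C' ∧
  ∀ (w : ℕ × ℕ → ℝ) (κ₁ κ₂ : ℝ) (I : Finset ℕ) (ν : Measure (ℂ × ℂ)), 0 ≤ κ₁ → κ₁ ≤ 1 → 0 ≤ κ₂ → κ₂ ≤ 1 →
    LW w κ₁ κ₂ (8 * n + 8) C I ν → vI I ≤ c → uI I ≤ c → ∀ R : ℕ, 1 ≤ R → ∀ a b θ₁ θ₂ : ℝ,
      |a| ≤ n → |b| ≤ n → |θ₁| ≤ 1 → |θ₂| ≤ 1 →
      ‖(∫ q, q.2 * BFs (20 * n * R) a b θ₁ θ₂ q.1 ∂ν) - Complex.exp (ex κ₁ κ₂ a b (θ₁ + θ₂) * vI I)‖ ≤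
        C' * (uI I + Real.exp (-(R:ℝ))) ∧
      ‖∫ q, q.2 * BBs (20 * n * R) R a θ₁ θ₂ q.1 ∂ν‖ ≤ C' * Real.exp (-(R:ℝ)) ∧
      ‖∫ q, q.2 * BEs (20 * n * R) a θ₁ θ₂ q.1 ∂ν‖ ≤ C' * Real.exp (-(R:ℝ))

/-- products over the blocks -/
def P_PRDs : Prop := ∀ (n : ℕ) (c C : ℝ), 1 ≤ n → 0 ≤ c → ∃ C₃ : ℝ, 0 < C₃ ∧
  ∀ (J Rs : ℕ) (I : ℕ → Finset ℕ) (b : ℕ → ℝ) (ν : ℕ → Measure (ℂ × ℂ)), Rg c J I b → 1 ≤ Rs →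
    ∀ (w : ℕ × ℕ → ℝ) (κ : ℝ), 0 ≤ κ → κ ≤ 1 → (∀ i < J, LW w κ κ (8 * n + 8) C (I i) (ν i)) →
      ∀ a θ₁ θ₂ : ℝ, |a| ≤ n → |θ₁| ≤ 1 → |θ₂| ≤ 1 →
        ∏ i ∈ range J, ‖∫ q, q.2 * BFs (KK n Rs i) a a θ₁ θ₂ q.1 ∂(ν i)‖ ≤
          C₃ * Real.exp ((2 * κ * a + a ^ 2 - (θ₁ + θ₂) ^ 2 / 4) * VV I J) ∧
        ∀ i₀ < J,
          ∏ i ∈ (range J).erase i₀, ‖∫ q, q.2 * BFs (KK n Rs i) a a θ₁ θ₂ q.1 ∂(ν i)‖ ≤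
            C₃ * Real.exp ((2 * κ * a + a ^ 2 - (θ₁ + θ₂) ^ 2 / 4) * VV I J) ∧
          ‖∫ q, q.2 * BBs (KK n Rs i₀) (RR Rs i₀) a θ₁ θ₂ q.1 ∂(ν i₀)‖ *
            ∏ i ∈ (range J).erase i₀, ‖∫ q, q.2 * BFs (KK n Rs i) a a θ₁ θ₂ q.1 ∂(ν i)‖ ≤
            Real.exp (-(RR Rs i₀ : ℝ)) *
              (C₃ * Real.exp ((2 * κ * a + a ^ 2 - (θ₁ + θ₂) ^ 2 / 4) * VV I J)) ∧
          ‖∫ q, q.2 * BEs (KK n Rs i₀) a θ₁ θ₂ q.1 ∂(ν i₀)‖ *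
            ∏ i ∈ (range J).erase i₀, ‖∫ q, q.2 * BFs (KK n Rs i) a a θ₁ θ₂ q.1 ∂(ν i)‖ ≤
            Real.exp (-(RR Rs i₀ : ℝ)) *
              (C₃ * Real.exp ((2 * κ * a + a ^ 2 - (θ₁ + θ₂) ^ 2 / 4) * VV I J))

/-- the product of the squares -/
def AQ (n Rs J : ℕ) (a : ℝ) (z : ℕ → ℂ) : ℂ := ∏ i ∈ range J, NS (KK n Rs i) a (z i)

/-- the weight -/
def AQD (n Rs J : ℕ) (I : ℕ → Finset ℕ) (a u t : ℝ) : ℝ :=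
  ‖AQ n Rs J a (zz I t)‖ ^ 2 * ‖DK n Rs J hh u (zz I t)‖ ^ 2

/-- first upper bound -/
def P_U1s : Prop := ∀ (n : ℕ) (c : ℝ), 1 ≤ n → 0 ≤ c → ∃ (P₀ : ℕ) (C η : ℝ), 0 < C ∧ 0 < η ∧
  ∀ Rs : ℕ, 1 ≤ Rs → ∀ᶠ T : ℝ in atTop, ∀ κ : ℕ, Rng T κ → ∀ (y : ℝ) (J : ℕ) (I : ℕ → Finset ℕ),
    Cfg c 1 P₀ y J I → n * ((Rs:ℝ) + 1) * Real.log y ≤ η * Real.log T → ∀ a u : ℝ, |a| ≤ n →
      ∫ t in Set.Ioi (0:ℝ), om κ (κ / T) t * AQD n Rs J I a u t ≤ C * WW (a ^ 2) (VV I J)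

/-- second upper bound: localisation -/
def P_U2s : Prop := ∀ (n : ℕ) (c : ℝ), 1 ≤ n → 0 ≤ c → ∃ (P₀ : ℕ) (C η : ℝ), 0 < C ∧ 0 < η ∧
  ∀ Rs : ℕ, 1 ≤ Rs → ∀ᶠ T : ℝ in atTop, ∀ κ : ℕ, Rng T κ → ∀ (y : ℝ) (J : ℕ) (I : ℕ → Finset ℕ),
    Cfg c 1 P₀ y J I → n * ((Rs:ℝ) + 1) * Real.log y ≤ η * Real.log T → ∀ a u : ℝ, |a| ≤ n →
      ∫ t in Set.Ioi (0:ℝ), om κ (κ / T) t * ((xx I J t - u) ^ 2 * AQD n Rs J I a u t) ≤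
        C * WW (a ^ 2) (VV I J)

/-- third upper bound: large values of one block -/
def P_U3s : Prop := ∀ (n : ℕ) (c : ℝ), 1 ≤ n → 0 ≤ c → ∃ (P₀ : ℕ) (C η : ℝ), 0 < C ∧ 0 < η ∧
  ∀ Rs : ℕ, 1 ≤ Rs → ∀ᶠ T : ℝ in atTop, ∀ κ : ℕ, Rng T κ → ∀ (y : ℝ) (J : ℕ) (I : ℕ → Finset ℕ),
    Cfg c 1 P₀ y J I → n * ((Rs:ℝ) + 1) * Real.log y ≤ η * Real.log T → ∀ a u : ℝ, |a| ≤ n → ∀ i < J,
      ∫ t in Set.Ioi (0:ℝ), om κ (κ / T) t * ((‖zz I t i‖ / RR Rs i) ^ (2 * RR Rs i) * AQD n Rs J I a u t) ≤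
        C * Real.exp (-(RR Rs i : ℝ)) * WW (a ^ 2) (VV I J)

/-- fourth upper bound: the twisted second moment -/
def P_U4s : Prop := ∀ (n : ℕ) (c : ℝ), 1 ≤ n → 0 ≤ c → ∃ (P₀ : ℕ) (C η : ℝ), 0 < C ∧ 0 < η ∧
  ∀ Rs : ℕ, 1 ≤ Rs → ∀ᶠ T : ℝ in atTop, ∀ κ : ℕ, Rng T κ → ∀ (y : ℝ) (J : ℕ) (I : ℕ → Finset ℕ),
    Cfg c 1 P₀ y J I → n * ((Rs:ℝ) + 1) * Real.log y ≤ η * Real.log T → ∀ a u : ℝ, |a| ≤ n →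
      ∫ t in Set.Ioi (0:ℝ), wz κ T t * AQD n Rs J I a u t ≤
        C * Real.log T * WW (2 * a + a ^ 2) (VV I J)

/-! ### Hardy's function -/

/-- Hardy's function -/
def Zr (t : ℝ) : ℝ :=
  (Gammaℝ (1 / 2 + t * Complex.I) / (‖Gammaℝ (1 / 2 + t * Complex.I)‖ : ℂ) *
    riemannZeta (1 / 2 + t * Complex.I)).re

/-- it is real and continuous -/
def P_ZR : Prop := (∀ t : ℝ, ((Zr t : ℝ) : ℂ) = Gammaℝ (1 / 2 + t * Complex.I) /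
    (‖Gammaℝ (1 / 2 + t * Complex.I)‖ : ℂ) * riemannZeta (1 / 2 + t * Complex.I)) ∧
  (∀ t : ℝ, |Zr t| = Xz t) ∧ Continuous Zr

/-- the mean of Hardy's function against a monomial -/
def P_OSC : Prop := ∀ᶠ T : ℝ in atTop, ∀ κ : ℕ, Rng T κ → ∀ h l : ℕ, 1 ≤ h → 1 ≤ l →
  (h : ℝ) ≤ T ^ (1 / 100 : ℝ) → (l : ℝ) ≤ T ^ (1 / 100 : ℝ) →
    ‖∫ t in Set.Ioi (0 : ℝ), ((om κ (κ / T) t : ℝ) : ℂ) * (((Zr t : ℝ) : ℂ) * mh t (h, l))‖ ≤ T ^ (-(1 / 8) : ℝ)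

/-- the mean of Hardy's function against the weights -/
def P_OZ : Prop := ∀ n : ℕ, 1 ≤ n → ∃ η : ℝ, 0 < η ∧ ∀ Rs : ℕ, 1 ≤ Rs → ∀ᶠ T : ℝ in atTop,
  ∀ κ : ℕ, Rng T κ → ∀ (c e : ℝ) (P₀ : ℕ) (y : ℝ) (J : ℕ) (I : ℕ → Finset ℕ), Cfg c e P₀ y J I →
    n * ((Rs:ℝ) + 1) * Real.log y ≤ η * Real.log T → ∀ a b u : ℝ, |a| ≤ n → |b| ≤ n →
      |∫ t in Set.Ioi (0:ℝ), om κ (κ / T) t * (Zr t *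
        (‖AQ n Rs J a (zz I t)‖ * ‖AQ n Rs J b (zz I t)‖ * ‖DK n Rs J hh u (zz I t)‖ ^ 2))| ≤ T ^ (-(1 / 16) : ℝ)

end

end Pool.Agent.TH806.LS
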