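import Pool.Agent.TH806.LS.Win4
import Pool.Agent.TH806.LM.Glue

set_option autoImplicit false

/-!
LS project: from windows to short intervals and to one set for all heights, for both signs.
-/

namespace Pool.Agent.TH806.LS

open Finset Filter Topology MeasureTheory Complex MonoidAlgebra
open Pool.Agent.W184.NZ
open Pool.Agent.TH806 Pool.Agent.TH806.LK Pool.Agent.TH806.LM
open Pool.Agent.H306R2.SM (om cl Yf)
open Pool.Agent.H262R4.TM (Rng Ck)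

noncomputable section

/-- the intervals, one set for each `T` -/
def P_PCs : Prop := ∀ B ε δ₀ : ℝ, 0 ≤ B → 0 < ε → 0 < δ₀ → ∃ (c C W δ : ℝ) (E : ℝ → Set ℝ), 0 < c ∧ 0 < C ∧ 0 < W ∧
  0 < δ ∧ δ ≤ δ₀ ∧ (∀ T, MeasurableSet (E T)) ∧
  (∀ T, ∀ t ∈ E T, 0 < Xz t ∧ |Real.log (Xz t) - Sp (T ^ δ) t| ≤ W) ∧ ∀ α : ℝ, 0 ≤ α → α < 1 → ∀ᶠ T : ℝ in atTop, ∀ A ∈ Set.Icc T (2 * T), ∀ H : ℝ,
    A / Real.log A ^ α ≤ H → H ≤ A →
    volume.real (Set.Icc A (A + H) ∩ (E T)ᶜ) ≤ ε * H ∧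
    (∀ V : ℝ, |V| ≤ B * Real.log (Real.log T) →
      (∀ σ : ℝ, (σ = 1 ∨ σ = -1) →
        c * (H * gg (Real.log (Real.log T)) V) ≤ volume.real (Set.Icc A (A + H) ∩ (E T ∩ Lev V W ∩ Sg σ))) ∧
      volume.real (Set.Icc A (A + H) ∩ (E T ∩ Lev V W)) ≤ C * (H * gg (Real.log (Real.log T)) V)) ∧
    ∀ k : ℝ, |k| ≤ B → IntegrableOn (fun t => Xz t ^ (2 * k)) (Set.Icc A (A + H) ∩ E T) ∧
      ∫ t in Set.Icc A (A + H) ∩ E T, Xz t ^ (2 * k) ≤ C * (H * Real.log T ^ (k ^ 2))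

theorem t_PCs (hZR : P_ZR) (hW : P_W2s) (hS : P_SHM) : P_PCs := by
  classical
  intro B ε δ₀ hB hε hδ₀
  obtain ⟨c, C, W, d, hc, hC, hW0, hd, hdd, hW⟩ := hW B (ε / 8) δ₀ hB (by positivity) hδ₀
  set q : ℝ → Set ℝ → Prop := fun T E => ∀ t ∈ E, 0 < Xz t ∧ |Real.log (Xz t) - Sp (T ^ d) t| ≤ W with hq
  set p : ℝ → Set ℝ → Prop := fun T E => ∀ x ∈ Set.Icc (T / 2) (8 * T), ∀ κ : ℕ, Rng x κ →
    ∫ t in Set.Ioi (0:ℝ) ∩ Eᶜ, om κ (κ / x) t ≤ ε / 8 ∧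
    (∀ V : ℝ, |V| ≤ B * Real.log (Real.log T) →
      (∀ σ : ℝ, (σ = 1 ∨ σ = -1) →
        c * gg (Real.log (Real.log T)) V ≤ ∫ t in Set.Ioi (0:ℝ) ∩ (E ∩ Lev V W ∩ Sg σ), om κ (κ / x) t) ∧
      ∫ t in Set.Ioi (0:ℝ) ∩ (E ∩ Lev V W), om κ (κ / x) t ≤ C * gg (Real.log (Real.log T)) V) ∧
    ∀ k : ℝ, |k| ≤ B →
      IntegrableOn (fun t => om κ (κ / x) t * E.indicator (fun t => Xz t ^ (2 * k)) t) (Set.Ioi 0) ∧
      ∫ t in Set.Ioi (0:ℝ), om κ (κ / x) t * E.indicator (fun t => Xz t ^ (2 * k)) t ≤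
        C * Real.log T ^ (k ^ 2) with hp
  have hW' : ∀ᶠ T : ℝ in atTop, ∃ E : Set ℝ, MeasurableSet E ∧ q T E ∧ p T E := hW
  have hch : ∀ T : ℝ, ∃ E : Set ℝ, MeasurableSet E ∧ q T E ∧
      ((∃ E', MeasurableSet E' ∧ q T E' ∧ p T E') → p T E) := by
    intro T
    by_cases h : ∃ E', MeasurableSet E' ∧ q T E' ∧ p T E'
    · obtain ⟨E', h1, h3, h2⟩ := h
      exact ⟨E', h1, h3, fun _ => h2⟩
    · exact ⟨∅, MeasurableSet.empty, fun t ht => absurd ht (Set.notMem_empty t), fun h' => absurd h' h⟩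
  choose E hE1 hEq hE2 using hch
  refine ⟨c / 2, 8 * C, W, d, E, by positivity, by positivity, hW0, hd, hdd, hE1, hEq, ?_⟩
  intro α hα hα1
  obtain ⟨κ, hκ⟩ := hS α (B ^ 2 + 1) hα hα1 (by positivity)
  filter_upwards [hW', ev_A hκ, w_ev B c hc, eventually_gt_atTop (0:ℝ),
    Real.tendsto_log_atTop.eventually_ge_atTop 4] with T hWT hκT hwT hT0 hL4 A hA H hH1 hH2
  have hET := hE2 T hWT
  have mE := hE1 T
  obtain ⟨hRng, hSH⟩ := hκT A hA
  obtain ⟨hlow, hup⟩ := hSH H hH1 hH2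
  have hA0 : 0 < A := lt_of_lt_of_le hT0 hA.1
  have hAx : ∀ x ∈ Set.Icc (A / 2) (4 * A), x ∈ Set.Icc (T / 2) (8 * T) := fun x hx =>
    ⟨by linarith [hx.1, hA.1], by linarith [hx.2, hA.2]⟩
  have hδ : ∀ x ∈ Set.Icc (A / 2) (4 * A), 0 < (κ A : ℝ) / x := by
    intro x hx
    have hx0 : 0 < x := by linarith [hx.1]
    have h1 : (4:ℝ) ≤ Real.log A := hL4.trans (Real.log_le_log hT0 hA.1)
    have h2 : Real.log A - 1 ≤ Real.log x := by
      have h3 := Real.log_le_log (by positivity : 0 < A / 2) hx.1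
      rw [Real.log_div hA0.ne' (by norm_num)] at h3
      linarith [Real.log_two_lt_d9]
    have := kpos (hRng x hx) (by linarith)
    positivity
  have hH0 : 0 ≤ H := by
    refine le_trans ?_ hH1
    have : 0 ≤ Real.log A := by
      have := Real.log_le_log hT0 hA.1
      linarith
    positivity
  refine ⟨?_, fun V hV => ⟨?_, ?_⟩, fun k hk => ?_⟩
  · -- exceptional set
    have h1 := hup (((E T)ᶜ).indicator fun _ => (1:ℝ)) (measurable_const.indicator mE.compl)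
      (fun t => Set.indicator_nonneg (fun _ _ => zero_le_one) t) (ε / 8) (by positivity) (fun x hx => by
        obtain ⟨i1, i2⟩ := ind_om (κ := κ A) (hδ x hx) mE.compl
        refine ⟨i1, ?_⟩
        rw [i2]
        exact (hET x (hAx x hx) _ (hRng x hx)).1)
    rw [ind_vol mE.compl] at h1
    refine h1.trans (le_of_eq ?_)
    ring
  · intro σ hσ
    have h1 := hlow (E T ∩ Lev V W ∩ Sg σ) ((mE.inter (Lev_meas V W)).inter (Sg_meas hZR.2.2 σ))
      (c * gg (Real.log (Real.log T)) V)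
      (hwT A hA V hV) (fun x hx => ((hET x (hAx x hx) _ (hRng x hx)).2.1 V hV).1 σ hσ)
    refine le_trans (le_of_eq ?_) h1
    ring
  · have mS := mE.inter (Lev_meas V W)
    have h1 := hup ((E T ∩ Lev V W).indicator fun _ => (1:ℝ)) (measurable_const.indicator mS)
      (fun t => Set.indicator_nonneg (fun _ _ => zero_le_one) t) (C * gg (Real.log (Real.log T)) V)
      (mul_nonneg hC.le (gg_nonneg _ _)) (fun x hx => by
        obtain ⟨i1, i2⟩ := ind_om (κ := κ A) (hδ x hx) mS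
        refine ⟨i1, ?_⟩
        rw [i2]
        exact ((hET x (hAx x hx) _ (hRng x hx)).2.1 V hV).2)
    rw [ind_vol mS] at h1
    refine h1.trans (le_of_eq ?_)
    ring
  · have hLk : 0 ≤ Real.log T ^ (k ^ 2) := Real.rpow_nonneg (by linarith) _
    have hAm : A ∈ Set.Icc (A / 2) (4 * A) := ⟨by linarith, by linarith⟩
    have hint : IntegrableOn ((E T).indicator fun t => Xz t ^ (2 * k)) (Set.Icc A (A + H)) :=
      int_back (hδ A hAm) hA0 ((hET A (hAx A hAm) _ (hRng A hAm)).2.2 k hk).1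
    refine ⟨?_, ?_⟩
    · refine (hint.mono_set Set.inter_subset_left).congr_fun (fun t ht => ?_) (measurableSet_Icc.inter mE)
      exact Set.indicator_of_mem ht.2 _
    · have h1 := hup ((E T).indicator fun t => Xz t ^ (2 * k))
        ((Xz_cont.measurable.pow_const _).indicator mE)
        (fun t => Set.indicator_nonneg (fun t _ => Real.rpow_nonneg (Xz_nonneg t) _) t)
        (C * Real.log T ^ (k ^ 2)) (by positivity)
        (fun x hx => (hET x (hAx x hx) _ (hRng x hx)).2.2 k hk)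
      rw [setIntegral_indicator mE] at h1
      refine h1.trans (le_of_eq ?_)
      ring

/-- the final theorem -/
def P_FINs : Prop := ∀ B ε δ₀ : ℝ, 0 ≤ B → 0 < ε → 0 < δ₀ → ∃ (E : Set ℝ) (c C W δ : ℝ), MeasurableSet E ∧
  0 < c ∧ 0 < C ∧ 0 < W ∧ 0 < δ ∧ δ ≤ δ₀ ∧
  (∀ j : ℕ, ∀ t ∈ E, (2:ℝ) ^ j ≤ t → t < (2:ℝ) ^ (j + 1) →
    0 < Xz t ∧ |Real.log (Xz t) - Sp (((2:ℝ) ^ j) ^ δ) t| ≤ W) ∧
  ∀ α : ℝ, 0 ≤ α → α < 1 → ∀ᶠ T : ℝ in atTop, ∀ H : ℝ, T / Real.log T ^ α ≤ H → H ≤ T →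
    volume.real (Set.Icc T (T + H) ∩ Eᶜ) ≤ ε * H ∧
    (∀ V : ℝ, |V| ≤ B * Real.log (Real.log T) →
      (∀ σ : ℝ, (σ = 1 ∨ σ = -1) →
        c * (H * gg (Real.log (Real.log T)) V) ≤ volume.real (Set.Icc T (T + H) ∩ (E ∩ Lev V W ∩ Sg σ))) ∧
      volume.real (Set.Icc T (T + H) ∩ (E ∩ Lev V W)) ≤ C * (H * gg (Real.log (Real.log T)) V)) ∧
    ∀ k : ℝ, |k| ≤ B → IntegrableOn (fun t => Xz t ^ (2 * k)) (Set.Icc T (T + H) ∩ E) ∧
      (∀ σ : ℝ, (σ = 1 ∨ σ = -1) →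
        c * (H * Real.log T ^ (k ^ 2)) ≤ ∫ t in Set.Icc T (T + H) ∩ (E ∩ Sg σ), Xz t ^ (2 * k)) ∧
      ∫ t in Set.Icc T (T + H) ∩ E, Xz t ^ (2 * k) ≤ C * (H * Real.log T ^ (k ^ 2))

theorem t_FINs (hZR : P_ZR) (hP : P_PCs) : P_FINs := by
  intro B ε δ₀ hB hε hδ₀
  obtain ⟨c₁, C₁, W, d, E, hc₁, hC₁, hW, hd, hdd, hEm, hEq, hP⟩ :=
    hP (B + 2) (ε / 2) δ₀ (by linarith) (by positivity) hδ₀
  set q₁ : ℝ := Real.exp (-(2 * (B + 1) ^ 2)) / 2 with hq₁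
  set q₂ : ℝ := 2 * Real.exp (2 * (B + 2) ^ 2) with hq₂
  set r : ℝ := Real.exp (-(2 * B * W + (2 * W + 1) ^ 2)) with hr
  have hq₁0 : 0 < q₁ := by positivity
  have hq₂0 : 0 < q₂ := by positivity
  have hr0 : 0 < r := by positivity
  have hr1 : r ≤ 1 := by
    rw [hr]
    apply Real.exp_le_one_iff.mpr
    have : 0 ≤ 2 * B * W + (2 * W + 1) ^ 2 := by positivity
    linarith
  set c₂ : ℝ := c₁ / 2 * q₁ with hc₂
  have hc₂0 : 0 < c₂ := by positivity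
  set D : ℝ := 1 + (2:ℝ) ^ (B ^ 2) with hD
  have hD0 : 0 < D := by positivity
  refine ⟨glue E, c₂ * r, 2 * C₁ * q₂ + C₁ * D, W, d, glue_meas hEm, by positivity, by positivity, hW, hd, hdd,
    fun j t ht h1 h2 => hEq _ t ((glue_mem h1 h2).mp ht), ?_⟩
  intro α hα hα1
  have hα' : 0 ≤ (1 + α) / 2 := by linarith
  have hα1' : (1 + α) / 2 < 1 := by linarith
  have hαα : α < (1 + α) / 2 := by linarith
  filter_upwards [ev_U (hP _ hα' hα1'), rat_ev hα hαα, logs_ev, eventually_ge_atTop (1:ℝ),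
    Real.tendsto_log_atTop.eventually_ge_atTop 4,
    (Real.tendsto_log_atTop.comp Real.tendsto_log_atTop).eventually_ge_atTop (B + 2),
    (Real.tendsto_log_atTop.comp Real.tendsto_log_atTop).eventually_ge_atTop ((2 * W + 1) ^ 2)] with
    T hPT hrat hlogs hT1 hL4 hlB hlW H hH1 hH2
  simp only [Function.comp] at hlB hlW
  set L := Real.log T with hLd
  set l := Real.log L with hld
  have hT0 : 0 < T := by linarith
  have hL0 : 0 < L := by linarith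
  have hl1 : 1 ≤ l := by linarith
  have hH0 : 0 ≤ H := by
    refine le_trans ?_ hH1
    positivity
  obtain ⟨j, hj1, hj2⟩ := exists_nat_pow_near hT1 (by norm_num : (1:ℝ) < 2)
  set U : ℝ := (2:ℝ) ^ j with hU
  have hU2 : (2:ℝ) ^ (j + 1) = 2 * U := by rw [hU, pow_succ]; ring
  have hU4 : (2:ℝ) ^ (j + 1 + 1) = 4 * U := by rw [hU, pow_succ, pow_succ]; ring
  rw [hU2] at hj2
  have hU0 : 0 < U := by positivity
  -- the two pieces
  have f1 := hPT U (by linarith)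
  have f2 := hPT (2 * U) (by linarith)
  have m1 : ∀ {t : ℝ}, U ≤ t → t < 2 * U → (t ∈ glue E ↔ t ∈ E U) := fun h1 h2 =>
    glue_mem (j := j) h1 (by rw [hU2]; exact h2)
  have m2 : ∀ {t : ℝ}, 2 * U ≤ t → t < 4 * U → (t ∈ glue E ↔ t ∈ E (2 * U)) := by
    intro t h1 h2
    have h3 : (2:ℝ) ^ (j + 1) ≤ t := by rw [hU2]; exact h1
    have h4 : t < (2:ℝ) ^ (j + 1 + 1) := by rw [hU4]; exact h2
    have := glue_mem (E := E) h3 h4
    rwa [hU2] at this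
  obtain ⟨u1, u2, u3⟩ := hlogs U ⟨by linarith, by linarith⟩
  obtain ⟨v1, v2, v3⟩ := hlogs (2 * U) ⟨by linarith, by linarith⟩
  obtain ⟨u4, u5⟩ := abs_le.mp u3
  obtain ⟨v4, v5⟩ := abs_le.mp v3
  set lU := Real.log (Real.log U) with hlU
  set lV := Real.log (Real.log (2 * U)) with hlV
  have hlU1 : B + 1 ≤ lU := by linarith
  have hlV1 : B + 1 ≤ lV := by linarith
  -- ranges
  have rT : T / Real.log T ^ ((1 + α) / 2) ≤ H / 2 := hrat H hH1 T ⟨le_rfl, by linarith⟩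
  have r2U : 2 * U / Real.log (2 * U) ^ ((1 + α) / 2) ≤ H / 2 := hrat H hH1 (2 * U) ⟨by linarith, by linarith⟩
  have a1 := f1 T ⟨hj1, hj2.le⟩ H (by linarith) hH2
  have a2 := f2 (2 * U) ⟨le_rfl, by linarith⟩ H (by linarith) (by linarith)
  -- inclusions
  have sub1 : ∀ S : Set ℝ, Set.Icc T (T + H) ∩ (glue E ∩ S) ⊆
      (Set.Icc T (T + H) ∩ (E U ∩ S)) ∪ (Set.Icc (2 * U) (2 * U + H) ∩ (E (2 * U) ∩ S)) := by
    rintro S t ⟨⟨t1, t2⟩, t3, t4⟩
    rcases lt_or_ge t (2 * U) with h | h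
    · exact Or.inl ⟨⟨t1, t2⟩, (m1 (hj1.trans t1) h).mp t3, t4⟩
    · exact Or.inr ⟨⟨h, by linarith⟩, (m2 h (by linarith)).mp t3, t4⟩
  have sub2 : Set.Icc T (T + H) ∩ (glue E)ᶜ ⊆
      (Set.Icc T (T + H) ∩ (E U)ᶜ) ∪ (Set.Icc (2 * U) (2 * U + H) ∩ (E (2 * U))ᶜ) := by
    rintro t ⟨⟨t1, t2⟩, t3⟩
    rcases lt_or_ge t (2 * U) with h | h
    · exact Or.inl ⟨⟨t1, t2⟩, fun h' => t3 ((m1 (hj1.trans t1) h).mpr h')⟩
    · exact Or.inr ⟨⟨h, by linarith⟩, fun h' => t3 ((m2 h (by linarith)).mpr h')⟩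
  -- the local law
  have hup : ∀ V : ℝ, |V| ≤ (B + 1) * l →
      volume.real (Set.Icc T (T + H) ∩ (glue E ∩ Lev V W)) ≤ 2 * C₁ * q₂ * (H * gg l V) := by
    intro V hV
    have hVU : |V| ≤ (B + 2) * lU := hV.trans (nb hB (by linarith only [u4]) hlU1)
    have hVV : |V| ≤ (B + 2) * lV := hV.trans (nb hB (by linarith only [v4]) hlV1)
    have b1 := (a1.2.1 V hVU).2
    have b2 := (a2.2.1 V hVV).2
    have c1 : gg lU V ≤ q₂ * gg l V := gg_cmp' (by linarith) hl1 (by rw [abs_sub_comm]; exact u3) hVU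
    have c2 : gg lV V ≤ q₂ * gg l V := gg_cmp' (by linarith) hl1 (by rw [abs_sub_comm]; exact v3) hVV
    refine (vol_two (sub1 _) fin_Icc fin_Icc).trans ((add_le_add b1 b2).trans ?_)
    calc C₁ * (H * gg lU V) + C₁ * (H * gg lV V) ≤ C₁ * (H * (q₂ * gg l V)) + C₁ * (H * (q₂ * gg l V)) := by gcongr
      _ = _ := by ring
  have hlow : ∀ σ : ℝ, (σ = 1 ∨ σ = -1) → ∀ V : ℝ, |V| ≤ (B + 1) * l →
      c₂ * (H * gg l V) ≤ volume.real (Set.Icc T (T + H) ∩ (glue E ∩ Lev V W ∩ Sg σ)) := by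
    intro σ hσ V hV
    have hVU : |V| ≤ (B + 2) * lU := hV.trans (nb hB (by linarith only [u4]) hlU1)
    have hVV : |V| ≤ (B + 2) * lV := hV.trans (nb hB (by linarith only [v4]) hlV1)
    rcases lt_or_ge (T + H / 2) (2 * U) with h | h
    · have b1 := ((f1 T ⟨hj1, hj2.le⟩ (H / 2) rT (by linarith)).2.1 V hVU).1 σ hσ
      have c1 : q₁ * gg l V ≤ gg lU V := gg_cmp hl1 (by linarith) u3 hV
      have hsub : Set.Icc T (T + H / 2) ∩ (E U ∩ Lev V W ∩ Sg σ) ⊆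
          Set.Icc T (T + H) ∩ (glue E ∩ Lev V W ∩ Sg σ) := by
        rintro t ⟨⟨t1, t2⟩, ⟨t3, t4⟩, t5⟩
        exact ⟨⟨t1, by linarith⟩, ⟨(m1 (hj1.trans t1) (by linarith)).mpr t3, t4⟩, t5⟩
      refine le_trans ?_ (b1.trans (measureReal_mono hsub fin_Icc))
      calc c₂ * (H * gg l V) = c₁ * (H / 2 * (q₁ * gg l V)) := by rw [hc₂]; ring
        _ ≤ c₁ * (H / 2 * gg lU V) := by gcongr
    · have hA2 : T + H / 2 ≤ 2 * T := by linarith
      have b1 := ((f2 (T + H / 2) ⟨h, by linarith⟩ (H / 2)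
        (hrat H hH1 (T + H / 2) ⟨by linarith, hA2⟩) (by linarith)).2.1 V hVV).1 σ hσ
      have c1 : q₁ * gg l V ≤ gg lV V := gg_cmp hl1 (by linarith) v3 hV
      have hsub : Set.Icc (T + H / 2) (T + H / 2 + H / 2) ∩ (E (2 * U) ∩ Lev V W ∩ Sg σ) ⊆
          Set.Icc T (T + H) ∩ (glue E ∩ Lev V W ∩ Sg σ) := by
        rintro t ⟨⟨t1, t2⟩, ⟨t3, t4⟩, t5⟩
        exact ⟨⟨by linarith, by linarith⟩, ⟨(m2 (h.trans t1) (by linarith)).mpr t3, t4⟩, t5⟩
      refine le_trans ?_ (b1.trans (measureReal_mono hsub fin_Icc))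
      calc c₂ * (H * gg l V) = c₁ * (H / 2 * (q₁ * gg l V)) := by rw [hc₂]; ring
        _ ≤ c₁ * (H / 2 * gg lV V) := by gcongr
  have hBl : B * l ≤ (B + 1) * l := by linarith
  refine ⟨?_, fun V hV => ⟨?_, ?_⟩, fun k hk => ?_⟩
  · refine (vol_two sub2 fin_Icc fin_Icc).trans ((add_le_add a1.1 a2.1).trans (le_of_eq ?_))
    ring
  · intro σ hσ
    refine le_trans ?_ (hlow σ hσ V (hV.trans hBl))
    have : 0 ≤ H * gg l V := mul_nonneg hH0 (gg_nonneg _ _)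
    have h1 : c₂ * r ≤ c₂ * 1 := mul_le_mul_of_nonneg_left hr1 hc₂0.le
    rw [mul_one] at h1
    exact mul_le_mul_of_nonneg_right h1 this
  · refine (hup V (hV.trans hBl)).trans ?_
    have : 0 ≤ H * gg l V := mul_nonneg hH0 (gg_nonneg _ _)
    refine mul_le_mul_of_nonneg_right ?_ this
    have : 0 < C₁ * D := by positivity
    linarith
  · have hk2 : |k| ≤ B + 2 := by linarith
    obtain ⟨i1, b1⟩ := a1.2.2 k hk2
    obtain ⟨i2, b2⟩ := a2.2.2 k hk2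
    have hsub : Set.Icc T (T + H) ∩ glue E ⊆
        (Set.Icc T (T + H) ∩ E U) ∪ (Set.Icc (2 * U) (2 * U + H) ∩ E (2 * U)) := by
      have := sub1 Set.univ
      simpa only [Set.inter_univ] using this
    obtain ⟨i3, b3⟩ := Pool.Agent.TH806.LM.int_two (fun t => Real.rpow_nonneg (Xz_nonneg t) (2 * k)) (measurableSet_Icc.inter (hEm U))
      (measurableSet_Icc.inter (hEm (2 * U))) hsub i1 i2
    refine ⟨i3, ?_, ?_⟩
    · intro σ hσ
      have hs : 2 * W + 1 ≤ Real.sqrt l := by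
        apply Real.le_sqrt_of_sq_le
        exact hlW
      have h1 := mom_low (B := B) (W := W) (c := c₂) (H := H) (l := l) (k := k)
        (F := Set.Icc T (T + H) ∩ (glue E ∩ Sg σ))
        (measurableSet_Icc.inter ((glue_meas hEm).inter (Sg_meas hZR.2.2 σ))) fin_Icc hW hl1 hs hk
        (by positivity) (fun V hV => by
          rw [Set.inter_assoc, Set.inter_assoc, Set.inter_comm (Sg σ), ← Set.inter_assoc (glue E)]
          exact hlow σ hσ V hV) (i3.mono_set (Set.inter_subset_inter_right _ Set.inter_subset_left))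
      have h2 : Real.exp (k ^ 2 * l) = L ^ (k ^ 2) := by
        rw [Real.rpow_def_of_pos hL0, hld]; congr 1; ring
      rw [h2] at h1
      exact h1
    · refine b3.trans ((add_le_add b1 b2).trans ?_)
      have hLU : Real.log U ^ (k ^ 2) ≤ L ^ (k ^ 2) := by
        refine Real.rpow_le_rpow (by linarith) (Real.log_le_log hU0 hj1) (sq_nonneg _)
      have hLV : Real.log (2 * U) ^ (k ^ 2) ≤ 2 ^ (B ^ 2) * L ^ (k ^ 2) := by
        have e1 : Real.log (2 * U) ≤ 2 * L := by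
          have := Real.log_le_log (by positivity) (show 2 * U ≤ 2 * T by linarith)
          rw [Real.log_mul (by norm_num : (2:ℝ) ≠ 0) hT0.ne'] at this
          linarith [Real.log_two_lt_d9]
        calc Real.log (2 * U) ^ (k ^ 2) ≤ (2 * L) ^ (k ^ 2) :=
              Real.rpow_le_rpow (by linarith) e1 (sq_nonneg _)
          _ = 2 ^ (k ^ 2) * L ^ (k ^ 2) := Real.mul_rpow (by norm_num) hL0.le
          _ ≤ 2 ^ (B ^ 2) * L ^ (k ^ 2) := by
              have h3 : k ^ 2 ≤ B ^ 2 := by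
                rw [← sq_abs k]; exact pow_le_pow_left₀ (abs_nonneg _) hk 2
              have h4 : (2:ℝ) ^ (k ^ 2) ≤ 2 ^ (B ^ 2) := Real.rpow_le_rpow_of_exponent_le (by norm_num) h3
              exact mul_le_mul_of_nonneg_right h4 (Real.rpow_nonneg hL0.le _)
      have hLk : 0 ≤ L ^ (k ^ 2) := Real.rpow_nonneg hL0.le _
      calc C₁ * (H * Real.log U ^ (k ^ 2)) + C₁ * (H * Real.log (2 * U) ^ (k ^ 2)) ≤
          C₁ * (H * L ^ (k ^ 2)) + C₁ * (H * (2 ^ (B ^ 2) * L ^ (k ^ 2))) := by gcongr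
        _ = C₁ * D * (H * L ^ (k ^ 2)) := by rw [hD]; ring
        _ ≤ (2 * C₁ * q₂ + C₁ * D) * (H * L ^ (k ^ 2)) := by
            refine mul_le_mul_of_nonneg_right ?_ (mul_nonneg hH0 hLk)
            have : 0 < 2 * C₁ * q₂ := by positivity
            linarith

end

end Pool.Agent.TH806.LS
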