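import Pool.Agent.TH806.LM.Fin
import Pool.Agent.TH806.LS.Glue
import Pool.Agent.TH111.LS_ALG
import Pool.Agent.TH111.LS_LOC
import Pool.Agent.TH370.LS_PRD
import Pool.Agent.TH81.LS_U13s
import Pool.Agent.TH81.LS_U2s
import Pool.Agent.TH55.LS_U4s
import Pool.Agent.TH914.LS_OSC
import Pool.Agent.TH914.LS_OZ
import Pool.Agent.TH620.LS_ZR

set_option autoImplicit false

/-!
LS project: assembly.
-/

namespace Pool.Agent.TH806.LS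

open Pool.Agent.TH806.LK Pool.Agent.TH806.LM

theorem a_ALGs : P_ALGs := Pool.Agent.TH111.LS_ALG.t_ALGs

theorem a_PRDs : P_PRDs := Pool.Agent.TH370.LS_PRD.t_PRDs Pool.Agent.TH111.LS_LOC.t_LOCs

theorem a_U13s : P_U1s ∧ P_U3s := Pool.Agent.TH81.LS_U13s.t_U13s a_ALGs a_LAW a_PRDs a_UPG

theorem a_U2s : P_U2s := Pool.Agent.TH81.LS_U2s.t_U2s a_ALGs a_LAW a_PRDs a_UPG

theorem a_U4s : P_U4s := Pool.Agent.TH55.LS_U4s.t_U4s a_ALGs a_LAW a_PRDs Pool.Agent.TH838.LK.t_AV2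

theorem a_ZR : P_ZR := Pool.Agent.TH620.LS_ZR.t_ZR

theorem a_OZ : P_OZ := Pool.Agent.TH914.LS_OZ.t_OZ Pool.Agent.TH914.LS_OSC.t_OSC a_ZR

theorem a_W2s : P_W2s :=
  t_W2s t_SET2 Pool.Agent.TH126.LK_PT.t_PT a_U13.1 a_U13.2 a_U4 a_LB a_U13s.1 a_U2s a_U13s.2 a_U4s a_ZR a_OZ
    Pool.Agent.TH364.LM_JEN.t_JEN Pool.Agent.TH921.LM_MP.t_MP Pool.Agent.TH148.LM_V.t_V1
    Pool.Agent.TH148.LM_V.t_V3 Pool.Agent.TH148.LM_V.t_V4 Pool.Agent.TH986.LM_DL.t_DL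

theorem a_FINs : P_FINs := t_FINs a_ZR (t_PCs a_ZR a_W2s Pool.Agent.TH883.LM_SHM.t_SHM)

end Pool.Agent.TH806.LS
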