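import Pool.Agent.TH806.LS.Win

set_option autoImplicit false

/-!
LS project: the local lower bound in the windows for both signs, with the configuration given.
-/

namespace Pool.Agent.TH806.LS

open Finset Filter Topology MeasureTheory Complex MonoidAlgebra
open Pool.Agent.W184.NZ
open Pool.Agent.TH806 Pool.Agent.TH806.LK Pool.Agent.TH806.LM
open Pool.Agent.H306R2.SM (om cl Yf)
open Pool.Agent.H262R4.TM (Rng Ck)

noncomputable section

lemma ev_small {c c₀ : ℝ} (hc : 0 < c) : ∀ᶠ T : ℝ in atTop, ∀ V : ℝ, 0 ≤ V →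
    V ≤ Real.log (Real.log T) + c₀ → ∀ k : ℝ, T ^ (-(1 / 16) : ℝ) ≤ c * WW (k ^ 2) V := by
  have h1 : ∀ᶠ x : ℝ in atTop, Real.log x ≤ c / 2 * x ^ (1 / 16 : ℝ) := by
    have h0 := (isLittleO_log_rpow_atTop (by norm_num : (0:ℝ) < 1 / 16)).bound (half_pos hc)
    filter_upwards [h0, eventually_ge_atTop 1] with x hx h1
    rw [Real.norm_eq_abs, Real.norm_eq_abs, abs_of_nonneg (Real.log_nonneg h1),
      abs_of_nonneg (by positivity)] at hx
    exact hx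
  have h2 : ∀ᶠ x : ℝ in atTop, 2 * (1 + c₀) / c ≤ x ^ (1 / 16 : ℝ) :=
    (tendsto_rpow_atTop (by norm_num : (0:ℝ) < 1 / 16)).eventually_ge_atTop _
  filter_upwards [h1, h2, eventually_gt_atTop (0:ℝ), Real.tendsto_log_atTop.eventually_ge_atTop 1] with
    T hT1 hT2 hT0 hL V hV0 hV k
  have hl : Real.log (Real.log T) ≤ Real.log T := (Real.log_le_sub_one_of_pos (by linarith)).trans (by linarith)
  have hp : 0 < T ^ (1 / 16 : ℝ) := Real.rpow_pos_of_pos hT0 _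
  rw [div_le_iff₀ hc] at hT2
  have h3 : 1 + V ≤ c * T ^ (1 / 16 : ℝ) := by linarith
  have h4 : T ^ (-(1 / 16) : ℝ) ≤ c * (1 + V)⁻¹ := by
    rw [Real.rpow_neg hT0.le, ← div_eq_mul_inv c, le_div_iff₀ (by linarith), inv_mul_le_iff₀ hp]
    linarith
  refine h4.trans (mul_le_mul_of_nonneg_left ?_ hc.le)
  unfold WW
  have h5 : (1 + V)⁻¹ ≤ (1 + V) ^ (-(1 / 2) : ℝ) := by
    rw [← Real.rpow_neg_one]
    exact Real.rpow_le_rpow_of_exponent_le (by linarith) (by norm_num)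
  have h6 : 1 ≤ Real.exp (k ^ 2 * V) := Real.one_le_exp (by positivity)
  calc (1 + V)⁻¹ ≤ (1 + V) ^ (-(1 / 2) : ℝ) * 1 := by rw [mul_one]; exact h5
    _ ≤ _ := by gcongr

lemma num_low {c₁ C3 C4 Λ W IX mu E : ℝ} (hC4 : 0 < C4) (hΛ : 0 < Λ) (hc₁ : 0 < c₁) (hW : 0 ≤ W)
    (hmu : mu = c₁ / (2 * C4 * Λ)) (h3 : 1 / mu * (C3 * E) ≤ c₁ / 4)
    (h : c₁ * W ≤ 64 * IX + mu / 2 * (C4 * (Λ * W)) + 1 / (2 * mu) * (2 * (C3 * E) * W)) :
    c₁ / 128 * W ≤ IX := by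
  have e1 : mu / 2 * (C4 * (Λ * W)) = c₁ / 4 * W := by
    rw [hmu]; field_simp; ring
  have e3 : 1 / (2 * mu) * (2 * (C3 * E) * W) = (1 / mu * (C3 * E)) * W := by
    have : mu ≠ 0 := by rw [hmu]; positivity
    field_simp
  rw [e1, e3] at h
  have h6 := mul_le_mul_of_nonneg_right h3 hW
  linarith

lemma num_E {c₁ C3 C4 CV n η R Λ q : ℝ} (hc₁ : 0 < c₁) (hq : 0 < q) (hC4 : 0 < C4) (hη : 0 < η)
    (hn : 0 < n) (hR : 0 ≤ R)
    (hΛ : Λ = Real.exp CV / (η / 16 / (n * (R + 1))))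
    (h : q ^ 2 * C3 * C4 * (Real.exp CV * (16 * n) / η) / c₁ ^ 2 * (R + 1) * Real.exp (-R) ≤ 1) :
    1 / (c₁ / (q * C4 * Λ)) * (C3 * Real.exp (-R)) ≤ c₁ / q := by
  have e1 : 1 / (c₁ / (q * C4 * Λ)) * (C3 * Real.exp (-R)) =
      (q ^ 2 * C3 * C4 * (Real.exp CV * (16 * n) / η) / c₁ ^ 2 * (R + 1) * Real.exp (-R)) * (c₁ / q) := by
    rw [hΛ]
    have : R + 1 ≠ 0 := by positivity
    field_simp
  rw [e1]
  have := mul_le_mul_of_nonneg_right h (show 0 ≤ c₁ / q by positivity)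
  linarith

lemma nyl {a y L η : ℝ} (ha : 1 ≤ a) (hy : 0 < y) (hL : 0 < L) (hη : η ≤ 1) (h : a * y ≤ η * L) : y ≤ L := by
  have h1 : 1 * y ≤ a * y := mul_le_mul_of_nonneg_right ha hy.le
  have h2 : η * L ≤ 1 * L := mul_le_mul_of_nonneg_right hη hL.le
  linarith

lemma ncc1 {η n R : ℝ} (hη : η ≤ 1) (hn : 1 ≤ n) (hR : 1 ≤ R) :
    η / 16 / (n * (R + 1)) ≤ 1 := by
  rw [div_le_one (by positivity)]
  nlinarith

lemma ncB {Cb lam c B' : ℝ} (hCb : 0 < Cb) (hlam : 0 < lam) (hc : 0 < c) (hB : B' = 1 + 4 * Cb / (lam * c)) :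
    1 / (2 * lam * B' ^ 2) * Cb ≤ c / 8 := by
  have h0 : 0 < 4 * Cb / (lam * c) := by positivity
  have hB1 : 1 ≤ B' := by linarith
  have e1 : 4 * Cb / (lam * c) ≤ B' ^ 2 := by nlinarith
  rw [div_le_iff₀ (by positivity)] at e1
  rw [one_div, inv_mul_le_iff₀ (by positivity)]
  nlinarith

theorem t_WLs (hPT : P_PT) (h3 : P_U3) (h4 : P_U4) (hL : P_LB) (s1 : P_U1s) (s2 : P_U2s) (s3 : P_U3s)
    (s4 : P_U4s) (hZR : P_ZR) (hOZ : P_OZ) :
    ∀ B : ℝ, 0 ≤ B → ∀ c₀ : ℝ, 0 ≤ c₀ → ∃ (n P : ℕ) (e₀ η₀ : ℝ), 1 ≤ n ∧ B + 1 ≤ n ∧ 0 < e₀ ∧ e₀ ≤ 1 ∧ 0 < η₀ ∧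
      η₀ ≤ 1 ∧ ∀ η : ℝ, 0 < η → η ≤ η₀ → ∀ CV : ℝ, 0 ≤ CV → ∃ R₁ : ℕ, ∀ Rs : ℕ, R₁ ≤ Rs →
        ∃ c_out B' K : ℝ, 0 < c_out ∧ 0 < B' ∧ 0 < K ∧ ∀ᶠ T : ℝ in atTop, ∀ κ : ℕ, Rng T κ →
          ∀ (y : ℝ) (J : ℕ) (I : ℕ → Finset ℕ), Cfg c₀ e₀ P y J I →
            η / 16 * Real.log T ≤ n * ((Rs:ℝ) + 1) * Real.log y → n * ((Rs:ℝ) + 1) * Real.log y ≤ η * Real.log T →
            Real.log (Real.log y) - CV ≤ VV I J → ∀ σ : ℝ, (σ = 1 ∨ σ = -1) → ∀ k : ℝ, |k| ≤ B →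
            c_out * (Real.exp (-(k ^ 2 * Real.log (Real.log T))) / Real.sqrt (Real.log (Real.log T))) ≤
              ∫ t in Set.Ioi (0:ℝ) ∩ (EE Rs J I K ∩ {t | |xx I J t - k * Real.log (Real.log T)| ≤ B'} ∩ Sg σ),
                om κ (κ / T) t := by
  intro B hB c₀ hc₀
  set n : ℕ := ⌈B⌉₊ + 1 with hn
  have hn1 : 1 ≤ n := by omega
  have hn1R : (1:ℝ) ≤ n := by exact_mod_cast hn1
  have hn0R : (0:ℝ) < n := by linarith
  have hBn : B + 1 ≤ n := by rw [hn]; push_cast; linarith [Nat.le_ceil B]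
  obtain ⟨P3, C3, η3, hC3, hη3, H3⟩ := h3 n c₀ hn1 hc₀
  obtain ⟨P4, C4, η4, hC4, hη4, H4⟩ := h4 n c₀ hn1 hc₀
  obtain ⟨P5, R5, c₁, e₀, η5, hc₁, he₀, he1, hη5, H5⟩ := hL n c₀ hn1 hc₀
  obtain ⟨Pa, Ca, ηa, hCa, hηa, Ha⟩ := s1 n c₀ hn1 hc₀
  obtain ⟨Pb, Cb, ηb, hCb, hηb, Hb⟩ := s2 n c₀ hn1 hc₀
  obtain ⟨Pc, Cc, ηc, hCc, hηc, Hc⟩ := s3 n c₀ hn1 hc₀
  obtain ⟨Pd, Cd, ηd, hCd, hηd, Hd⟩ := s4 n c₀ hn1 hc₀
  obtain ⟨ηz, hηz, Hz⟩ := hOZ n hn1
  obtain ⟨η₀, hη0, hη1', g3, g4, g5, ga, gb, gc, gd', gz⟩ : ∃ η : ℝ, 0 < η ∧ η ≤ 1 ∧ η ≤ η3 ∧ η ≤ η4 ∧ η ≤ η5 ∧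
      η ≤ ηa ∧ η ≤ ηb ∧ η ≤ ηc ∧ η ≤ ηd ∧ η ≤ ηz := by
    set m := min η3 (min η4 η5) with hm
    set m' := min ηa (min ηb (min ηc (min ηd ηz))) with hm'
    have hm0 : 0 < m := by positivity
    have hm0' : 0 < m' := by positivity
    refine ⟨min 1 (min m m'), by positivity, min_le_left _ _, ?_, ?_, ?_, ?_, ?_, ?_, ?_, ?_⟩
    · exact (min_le_right _ _).trans ((min_le_left _ _).trans (min_le_left _ _))
    · exact (min_le_right _ _).trans ((min_le_left _ _).trans ((min_le_right _ _).trans (min_le_left _ _)))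
    · exact (min_le_right _ _).trans ((min_le_left _ _).trans ((min_le_right _ _).trans (min_le_right _ _)))
    · exact (min_le_right _ _).trans ((min_le_right _ _).trans (min_le_left _ _))
    · exact (min_le_right _ _).trans ((min_le_right _ _).trans ((min_le_right _ _).trans (min_le_left _ _)))
    · exact (min_le_right _ _).trans ((min_le_right _ _).trans ((min_le_right _ _).trans ((min_le_right _ _).trans
        (min_le_left _ _))))
    · exact (min_le_right _ _).trans ((min_le_right _ _).trans ((min_le_right _ _).trans ((min_le_right _ _).trans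
        ((min_le_right _ _).trans (min_le_left _ _)))))
    · exact (min_le_right _ _).trans ((min_le_right _ _).trans ((min_le_right _ _).trans ((min_le_right _ _).trans
        ((min_le_right _ _).trans (min_le_right _ _)))))
  refine ⟨n, P3 + P4 + P5 + Pa + Pb + Pc + Pd, e₀, η₀, hn1, hBn, he₀, he1, hη0, hη1', ?_⟩
  intro η hη hηη CV hCV
  set c₂ : ℝ := c₁ / 512 with hc₂
  have hc₂0 : 0 < c₂ := by positivity
  set Ka : ℝ := 4 ^ 2 * C3 * (C4 / 2) * (Real.exp CV * (16 * n) / η) / c₁ ^ 2 with hKa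
  set Kb : ℝ := 8 ^ 2 * Cc * Cd * (Real.exp CV * (16 * n) / η) / c₂ ^ 2 with hKb
  have hKa0 : 0 < Ka := by positivity
  have hKb0 : 0 < Kb := by positivity
  obtain ⟨R₁, hR₁⟩ := Rs_all (Ka + Kb) R5
  refine ⟨R₁, fun Rs hRs1' => ?_⟩
  obtain ⟨hR5, hR1, hRs⟩ := hR₁ Rs hRs1'
  have hRs1 : (1:ℝ) ≤ Rs := by exact_mod_cast hR1
  set cc : ℝ := η / 16 / (n * ((Rs:ℝ) + 1)) with hcc
  have hcc0 : 0 < cc := by positivity
  have hη1 : η ≤ 1 := hηη.trans hη1'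
  have hcc1 : cc ≤ 1 := ncc1 hη1 hn1R hRs1
  set Λ : ℝ := Real.exp CV / cc with hΛ
  have hΛ0 : 0 < Λ := by positivity
  have hE0 := Real.exp_pos (-(Rs:ℝ))
  have hEa : Ka * ((Rs:ℝ) + 1) * Real.exp (-(Rs:ℝ)) ≤ 1 := by
    refine le_trans ?_ hRs
    gcongr
    linarith
  have hEb : Kb * ((Rs:ℝ) + 1) * Real.exp (-(Rs:ℝ)) ≤ 1 := by
    refine le_trans ?_ hRs
    gcongr
    linarith
  set mu : ℝ := c₁ / (4 * (C4 / 2) * Λ) with hmu
  have hmu0 : 0 < mu := by positivity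
  have hmu2 : mu = c₁ / (2 * C4 * Λ) := by rw [hmu]; congr 2; ring
  have hmE : 1 / mu * (C3 * Real.exp (-(Rs:ℝ))) ≤ c₁ / 4 :=
    num_E hc₁ (by norm_num) (by positivity) hη hn0R (by positivity) hΛ hEa
  set lam : ℝ := c₂ / (8 * Cd * Λ) with hlam
  have hlam0 : 0 < lam := by positivity
  have hlE : 1 / lam * (Cc * Real.exp (-(Rs:ℝ))) ≤ c₂ / 8 :=
    num_E hc₂0 (by norm_num) hCd hη hn0R (by positivity) hΛ hEb
  set M' : ℝ := 32 * Cd * Λ / c₂ with hM'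
  have hM'0 : 0 < M' := by positivity
  set c' : ℝ := c₂ / (128 * Ca) with hc'
  have hc'0 : 0 < c' := by positivity
  set B' : ℝ := 1 + 4 * Cb / (lam * c₂) with hB'
  have hB'0 : 0 < B' := by positivity
  have hcB : 1 / (2 * lam * B' ^ 2) * Cb ≤ c₂ / 8 := ncB hCb hlam0 hc₂0 hB'
  set DV : ℝ := c₀ + CV + |Real.log cc| with hDV
  have hDV0 : 0 ≤ DV := by positivity
  set c_out : ℝ := c₂ / 4 / (256 * (4 * M') * Real.exp (2 * B * B')) *
    (Real.exp (-(B ^ 2 * DV)) * (2 + DV) ^ (-(1 / 2) : ℝ)) with hcout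
  have h2DV : 0 < (2 + DV) ^ (-(1 / 2) : ℝ) := Real.rpow_pos_of_pos (by linarith only [hDV0]) _
  set K : ℝ := 1 + |Real.log c'| + |Real.log (4 * M')| with hK
  refine ⟨c_out, B' + B * DV, K, by positivity, by positivity, by positivity, ?_⟩
  filter_upwards [H3 Rs hR1, H4 Rs hR1, H5 Rs hR5 hR1, Ha Rs hR1, Hb Rs hR1, Hc Rs hR1, Hd Rs hR1, Hz Rs hR1,
    ev_small (c := c₁ / 256) (by positivity), eventually_gt_atTop (0:ℝ),
    Real.tendsto_log_atTop.eventually_ge_atTop 1,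
    (Real.tendsto_log_atTop.comp Real.tendsto_log_atTop).eventually_ge_atTop 1] with
    T h3T h4T h5T haT hbT hcT hdT hzT hsm hT0 hL1 hl1 κ hκ y J I hcfg hylo hyhi hV σ hσ k hk
  simp only [Function.comp] at hl1
  set L := Real.log T with hLd
  set l := Real.log L with hld
  have hL0 : 0 < L := by linarith only [hL1]
  have hnR : (0:ℝ) < n * ((Rs:ℝ) + 1) := by positivity
  have hnR1 : (1:ℝ) ≤ n * ((Rs:ℝ) + 1) := one_le_mul_of_one_le_of_one_le hn1R (by linarith only [hRs1])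
  have hylo' : cc * L ≤ Real.log y := by
    rw [hcc, div_mul_eq_mul_div, div_le_iff₀ hnR]; linarith only [hylo]
  have hly0 : 0 < Real.log y := lt_of_lt_of_le (by positivity) hylo'
  have hyhi' : Real.log y ≤ L := nyl hnR1 hly0 hL0 hη1 hyhi
  set V := VV I J with hVd
  have hV0 : 0 ≤ V := sum_nonneg fun i _ => vI_nonneg _
  have hVup : V ≤ l + c₀ := by
    have h6 := hcfg.vv
    have h7 : Real.log (Real.log y) ≤ l := Real.log_le_log hly0 hyhi'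
    linarith only [h6, h7]
  have hVV' : Real.log (cc * L) - CV ≤ V := by
    have h7 : Real.log (cc * L) ≤ Real.log (Real.log y) := Real.log_le_log (by positivity) hylo'
    linarith only [h7, hV]
  have hVlow : l - DV ≤ V := by
    have h8 := hVV'
    rw [Real.log_mul hcc0.ne' hL0.ne'] at h8
    have := neg_abs_le (Real.log cc)
    linarith only [this, h8, hDV, hc₀]
  have hk1 : |k| + 1 ≤ n := by linarith only [hk, hBn]
  have hkn : |k| ≤ n := by linarith only [hk1]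
  have hkn' : |k - 1| ≤ n := (abs_sub _ _).trans (by simpa using hk1)
  have hκ0 : (0:ℝ) < κ := kpos hκ hL0
  have hδ : 0 < (κ:ℝ) / T := by positivity
  have hI : ∀ i, ∀ p ∈ I i, p.Prime := fun i p hp => (hcfg.rg.pr i p hp).1
  have hlen : ∀ {η' : ℝ}, η₀ ≤ η' → n * ((Rs:ℝ) + 1) * Real.log y ≤ η' * L := fun h =>
    hyhi.trans (mul_le_mul_of_nonneg_right (hηη.trans h) hL0.le)
  have key := int_keys hPT hZR hσ hI hn1 hR1 (κ := κ) (T := T) hδ (u := k * V) (k := k) hk1 hlam0 hB'0 hc'0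
    (show 0 < 4 * M' by positivity) (J := J)
  have lowX := low_X hPT hI hn1 hR1 (κ := κ) (T := T) hδ (u := k * V) (k := k) hk1 hmu0 (J := J)
  have low := h5T κ hκ _ J I (hcfg.mono le_rfl (by omega)) (hlen g5) k hk1
  have u3 := h3T κ hκ _ J I (hcfg.mono he1 (by omega)) (hlen g3) k (k * V) hkn
  have u4 := h4T κ hκ _ J I (hcfg.mono he1 (by omega)) (hlen g4) (k - 1) (k * V) hkn'
  have ua := haT κ hκ _ J I (hcfg.mono he1 (by omega)) (hlen ga) k (k * V) hkn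
  have ub := hbT κ hκ _ J I (hcfg.mono he1 (by omega)) (hlen gb) k (k * V) hkn
  have uc := hcT κ hκ _ J I (hcfg.mono he1 (by omega)) (hlen gc) k (k * V) hkn
  have ud := hdT κ hκ _ J I (hcfg.mono he1 (by omega)) (hlen gd') (k - 1) (k * V) hkn'
  have uz := hzT κ hκ c₀ e₀ _ y J I hcfg (hlen gz) k (k - 1) (k * V) hkn hkn'
  set W := WW (k ^ 2) V with hW
  have hW0 : 0 < W := by unfold W WW; positivity
  have hsmV : T ^ (-(1 / 16) : ℝ) ≤ c₁ / 256 * W := hsm V hV0 hVup k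
  have hWW : WW (2 * (k - 1) + (k - 1) ^ 2) V = W * Real.exp (-V) := by
    rw [hW]; unfold WW
    rw [mul_assoc, ← Real.exp_add]; congr 2; ring
  have hLT : L * Real.exp (-V) ≤ Λ := by
    have h6 := lam_T (V := V) hL1 hcc0 hVV'
    rw [Real.exp_neg]
    rw [mul_inv_le_iff₀ (Real.exp_pos _)]
    exact h6
  have hC4' : ∀ {C : ℝ}, 0 < C → C * L * (W * Real.exp (-V)) ≤ C * (Λ * W) := by
    intro C hC
    calc C * L * (W * Real.exp (-V)) = C * ((L * Real.exp (-V)) * W) := by ring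
      _ ≤ C * (Λ * W) := by gcongr
  have u4' : ∫ t in Set.Ioi (0:ℝ), wz κ T t * AD n Rs J I (k - 1) (k * V) t ≤ C4 * (Λ * W) := by
    refine u4.trans ?_
    rw [hWW]
    exact hC4' hC4
  have ud' : ∫ t in Set.Ioi (0:ℝ), wz κ T t * AQD n Rs J I (k - 1) (k * V) t ≤ Cd * (Λ * W) := by
    refine ud.trans ?_
    rw [hWW]
    exact hC4' hCd
  have h6 := sum_exp_le J Rs (RR_ge Rs)
  have u3' : ∑ i ∈ range J, ∫ t in Set.Ioi (0:ℝ), om κ (κ / T) t *
        ((‖zz I t i‖ / RR Rs i) ^ (2 * RR Rs i) * AD n Rs J I k (k * V) t) ≤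
      2 * (C3 * Real.exp (-(Rs:ℝ))) * W := by
    refine (sum_le_sum fun i hi => u3 i (mem_range.mp hi)).trans ?_
    rw [← sum_mul, ← mul_sum]
    calc C3 * (∑ i ∈ range J, Real.exp (-(RR Rs i : ℝ))) * W ≤ C3 * (2 * Real.exp (-(Rs:ℝ))) * W := by gcongr
      _ = _ := by ring
  have uc' : ∑ i ∈ range J, ∫ t in Set.Ioi (0:ℝ), om κ (κ / T) t *
        ((‖zz I t i‖ / RR Rs i) ^ (2 * RR Rs i) * AQD n Rs J I k (k * V) t) ≤
      2 * (Cc * Real.exp (-(Rs:ℝ))) * W := by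
    refine (sum_le_sum fun i hi => uc i (mem_range.mp hi)).trans ?_
    rw [← sum_mul, ← mul_sum]
    calc Cc * (∑ i ∈ range J, Real.exp (-(RR Rs i : ℝ))) * W ≤ Cc * (2 * Real.exp (-(Rs:ℝ))) * W := by gcongr
      _ = _ := by ring
  -- the lower bound for the absolute value
  have hIX := num_low (IX := ∫ t in Set.Ioi (0:ℝ), om κ (κ / T) t * (Xz t *
        (‖AQ n Rs J k (zz I t)‖ * ‖AQ n Rs J (k - 1) (zz I t)‖ * ‖DK n Rs J hh (k * V) (zz I t)‖ ^ 2)))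
    (C3 := C3) (E := Real.exp (-(Rs:ℝ))) hC4 hΛ0 hc₁ hW0.le hmu2 hmE (by
      refine low.trans (lowX.trans ?_)
      gcongr)
  have hIY := half_Y hPT hZR hσ hI hδ (n := n) (Rs := Rs) (J := J) (k := k) (uz.trans hsmV)
  have hlowY : c₂ * W ≤ ∫ t in Set.Ioi (0:ℝ), om κ (κ / T) t * (max (σ * Zr t) 0 *
        (‖AQ n Rs J k (zz I t)‖ * ‖AQ n Rs J (k - 1) (zz I t)‖ * ‖DK n Rs J hh (k * V) (zz I t)‖ ^ 2)) := by
    refine le_trans ?_ hIY
    rw [hc₂]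
    linarith only [hIX]
  have e16 : lam + 16 / (4 * M') = lam + 4 / M' := by
    congr 1
    field_simp
    norm_num
  rw [e16] at key
  have hfin := final_num (c₁ := c₂) (C1 := Ca) (C2 := Cb) (C3 := Cc) (C4 := Cd) (Λ := Λ) (W := W)
    (G := 256 * (4 * M') * Real.exp (2 * k * (k * V) + 2 * |k| * B'))
    (X := ∫ t in Set.Ioi (0:ℝ) ∩ (SS Rs J I (k * V) B' c' (4 * M') ∩ Sg σ), om κ (κ / T) t)
    (lam := lam) (B' := B') (c' := c') (M' := M') (E := Real.exp (-(Rs:ℝ))) hc₂0 hCa hCd hΛ0 hW0.le hlam hM' hc'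
    hcB hlE (by
      refine hlowY.trans (key.trans ?_)
      gcongr)
  -- the set
  have r1 := neg_abs_le (Real.log c')
  have r2 := le_abs_self (Real.log (4 * M'))
  have r3 := abs_nonneg (Real.log c')
  have r4 := abs_nonneg (Real.log (4 * M'))
  have hcK : Real.exp (-K) ≤ c' := by
    rw [← Real.exp_log hc'0]
    exact Real.exp_le_exp.mpr (by rw [hK]; linarith only [r1, r4])
  have hMK : 4 * M' ≤ Real.exp K := by
    rw [← Real.exp_log (show 0 < 4 * M' by positivity)]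
    exact Real.exp_le_exp.mpr (by rw [hK]; linarith only [r2, r3])
  have hSsub : SS Rs J I (k * V) B' c' (4 * M') ∩ Sg σ ⊆
      EE Rs J I K ∩ {t | |xx I J t - k * l| ≤ B' + B * DV} ∩ Sg σ := by
    rintro t ⟨ht, hs⟩
    obtain ⟨hg, hx, hlo, hhi⟩ := ht
    have hVl : |V - l| ≤ DV := by
      rw [abs_le]; constructor
      · linarith only [hVlow]
      · have := abs_nonneg (Real.log cc)
        linarith only [this, hVup, hDV, hCV]
    have hxk : |xx I J t - k * l| ≤ B' + B * DV := by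
      have e1 : xx I J t - k * l = (xx I J t - k * V) + k * (V - l) := by ring
      rw [e1]
      refine (abs_add_le _ _).trans (add_le_add hx ?_)
      rw [abs_mul]
      exact mul_le_mul hk hVl (abs_nonneg _) hB
    refine ⟨⟨⟨hg, le_trans ?_ hlo, hhi.trans ?_⟩, hxk⟩, hs⟩
    · exact mul_le_mul_of_nonneg_right hcK (Real.exp_pos _).le
    · exact mul_le_mul_of_nonneg_right hMK (Real.exp_pos _).le
  have hmono : ∫ t in Set.Ioi (0:ℝ) ∩ (SS Rs J I (k * V) B' c' (4 * M') ∩ Sg σ), om κ (κ / T) t ≤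
      ∫ t in Set.Ioi (0:ℝ) ∩ (EE Rs J I K ∩ {t | |xx I J t - k * l| ≤ B' + B * DV} ∩ Sg σ), om κ (κ / T) t := by
    refine setIntegral_mono_set ((om_int0 κ hδ).mono_set Set.inter_subset_left) ?_ ?_
    · refine ae_restrict_of_ae_restrict_of_subset Set.inter_subset_left ?_
      exact (ae_restrict_iff' measurableSet_Ioi).mpr (Eventually.of_forall fun t ht => om_nn κ hδ (le_of_lt ht))
    · exact (Set.inter_subset_inter_right _ hSsub).eventuallyLE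
  refine le_trans ?_ hmono
  -- numbers
  have hww := fin_WW (B := B) hl1 hV0 hDV0 (show V ≤ l + DV by
    have := abs_nonneg (Real.log cc)
    linarith only [this, hVup, hDV, hCV]) hk
  have hGpos : 0 < 256 * (4 * M') * Real.exp (2 * k * (k * V) + 2 * |k| * B') := by positivity
  have hXlow : c₂ / 4 * W / (256 * (4 * M') * Real.exp (2 * k * (k * V) + 2 * |k| * B')) ≤
      ∫ t in Set.Ioi (0:ℝ) ∩ (SS Rs J I (k * V) B' c' (4 * M') ∩ Sg σ), om κ (κ / T) t := by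
    rw [div_le_iff₀ hGpos]; linarith only [hfin]
  refine le_trans ?_ hXlow
  have e5 : c₂ / 4 * W / (256 * (4 * M') * Real.exp (2 * k * (k * V) + 2 * |k| * B')) =
      c₂ / 4 / (256 * (4 * M') * Real.exp (2 * |k| * B')) *
        ((1 + V) ^ (-(1 / 2) : ℝ) * Real.exp (-(k ^ 2 * V))) := by
    rw [hW]; unfold WW
    have e6 : Real.exp (2 * k * (k * V) + 2 * |k| * B') =
        Real.exp (k ^ 2 * V) * Real.exp (k ^ 2 * V) * Real.exp (2 * |k| * B') := by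
      rw [← Real.exp_add, ← Real.exp_add]; congr 1; ring
    rw [e6, Real.exp_neg]
    field_simp
  rw [e5]
  have e7 : c₂ / 4 / (256 * (4 * M') * Real.exp (2 * B * B')) ≤
      c₂ / 4 / (256 * (4 * M') * Real.exp (2 * |k| * B')) := by
    gcongr
  calc c_out * (Real.exp (-(k ^ 2 * l)) / Real.sqrt l) =
      c₂ / 4 / (256 * (4 * M') * Real.exp (2 * B * B')) *
        (Real.exp (-(B ^ 2 * DV)) * (2 + DV) ^ (-(1 / 2) : ℝ) * (Real.exp (-(k ^ 2 * l)) / Real.sqrt l)) := by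
        rw [hcout]; ring
    _ ≤ c₂ / 4 / (256 * (4 * M') * Real.exp (2 * |k| * B')) *
          ((1 + V) ^ (-(1 / 2) : ℝ) * Real.exp (-(k ^ 2 * V))) := by
        refine mul_le_mul e7 hww (by positivity) (by positivity)

end

end Pool.Agent.TH806.LS
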