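import Pool.Agent.TH806.LS.Defs
import Pool.Agent.TH806.LM.Win4

set_option autoImplicit false

/-!
LS project: the pointwise inequality and its integral, for one sign of Hardy's function.
-/

namespace Pool.Agent.TH806.LS

open Finset Filter Topology MeasureTheory Complex MonoidAlgebra
open Pool.Agent.W184.NZ
open Pool.Agent.TH806 Pool.Agent.TH806.LK
open Pool.Agent.H306R2.SM (om cl Yf)
open Pool.Agent.H262R4.TM (Rng Ck)

noncomputable section

lemma AQ_norm (n Rs J : ℕ) (a : ℝ) (z : ℕ → ℂ) : ‖AQ n Rs J a z‖ = ‖AZ n Rs J (a / 2) z‖ ^ 2 := by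
  unfold AQ AZ NS
  rw [prod_pow, norm_pow]
  push_cast
  rfl

/-- continuity and bounds of the squares -/
lemma AQ_cont (hPT : P_PT) {n Rs J : ℕ} {I : ℕ → Finset ℕ} (hI : ∀ i, ∀ p ∈ I i, p.Prime) (a : ℝ) :
    Continuous (fun t => ‖AQ n Rs J a (zz I t)‖) ∧ ∃ B : ℝ, ∀ t, ‖AQ n Rs J a (zz I t)‖ ≤ B := by
  have hhc : Continuous hh := by unfold hh; fun_prop
  obtain ⟨cA, _, _, B, hB⟩ := hPT.1 n Rs J I (a / 2) 0 hh hI hhc
  simp only [AQ_norm]
  refine ⟨cA.norm.pow 2, B ^ 2, fun t => ?_⟩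
  have := (hB t).1
  gcongr

lemma AQ_pt (hPT : P_PT) {n Rs J : ℕ} {z : ℕ → ℂ} (hn : 1 ≤ n) (hRs : 1 ≤ Rs) (hg : ∀ i < J, ‖z i‖ ≤ RR Rs i)
    {a : ℝ} (ha : |a| ≤ n) :
    Real.exp (a * ∑ i ∈ range J, (z i).re) / 4 ≤ ‖AQ n Rs J a z‖ ∧
      ‖AQ n Rs J a z‖ ≤ 4 * Real.exp (a * ∑ i ∈ range J, (z i).re) := by
  have h0 : |a / 2| ≤ n := by
    rw [abs_div, abs_of_pos (by norm_num : (0:ℝ) < 2)]
    have := abs_nonneg a
    linarith
  obtain ⟨h1, h2⟩ := (hPT.2 n Rs J z hn hRs hg).1 (a / 2) h0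
  have e1 : Real.exp (a * ∑ i ∈ range J, (z i).re) = Real.exp (a / 2 * ∑ i ∈ range J, (z i).re) ^ 2 := by
    rw [← Real.exp_nat_mul]; congr 1; push_cast; ring
  rw [AQ_norm, e1]
  constructor
  · calc Real.exp (a / 2 * ∑ i ∈ range J, (z i).re) ^ 2 / 4 =
        (Real.exp (a / 2 * ∑ i ∈ range J, (z i).re) / 2) ^ 2 := by ring
      _ ≤ _ := by gcongr
  · calc ‖AZ n Rs J (a / 2) z‖ ^ 2 ≤ (2 * Real.exp (a / 2 * ∑ i ∈ range J, (z i).re)) ^ 2 := by gcongr
      _ = _ := by ring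

open Classical in
lemma pw4 {X A A' D : ℝ} (hX : 0 ≤ X) (hA : 0 ≤ A) (hA' : 0 ≤ A') (hD : 0 ≤ D) {x u k lam B' c' M' G bad : ℝ}
    (hlam : 0 < lam) (hB' : 0 < B') (hc' : 0 < c') (hM' : 0 < M') (hG : 0 ≤ G) (hbad : 0 ≤ bad) {good : Prop}
    (h1 : ¬ good → 1 ≤ bad)
    (h2 : good → Real.exp (k * x) / 4 ≤ A ∧ A ≤ 4 * Real.exp (k * x) ∧ Real.exp ((k - 1) * x) / 4 ≤ A' ∧
      A' ≤ 4 * Real.exp ((k - 1) * x))
    (hS : good → |x - u| ≤ B' → c' * Real.exp x ≤ X → X ≤ M' * Real.exp x → X * (A * A') * D ≤ G) :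
    X * (A * A') * D ≤ (if good ∧ |x - u| ≤ B' ∧ c' * Real.exp x ≤ X ∧ X ≤ M' * Real.exp x then G else 0) +
      (lam + 16 / M') * (X ^ 2 * (A' ^ 2 * D)) + 1 / (2 * lam) * (bad * (A ^ 2 * D)) +
      1 / (2 * lam * B' ^ 2) * ((x - u) ^ 2 * (A ^ 2 * D)) + 16 * c' * (A ^ 2 * D) := by
  have t1 : 0 ≤ X ^ 2 * (A' ^ 2 * D) := by positivity
  have t2 : 0 ≤ 1 / (2 * lam) * (bad * (A ^ 2 * D)) := by positivity
  have t3 : 0 ≤ 1 / (2 * lam * B' ^ 2) * ((x - u) ^ 2 * (A ^ 2 * D)) := by positivity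
  have t4 : 0 ≤ c' * (A ^ 2 * D) := by positivity
  have t5 : 0 ≤ 16 / M' * (X ^ 2 * (A' ^ 2 * D)) := by positivity
  have t6 : 0 ≤ lam * (X ^ 2 * (A' ^ 2 * D)) := by positivity
  have t0 : 0 ≤ (if good ∧ |x - u| ≤ B' ∧ c' * Real.exp x ≤ X ∧ X ≤ M' * Real.exp x then G else 0) := by
    split_ifs
    · exact hG
    · exact le_rfl
  have hAM := mul_le_mul_of_nonneg_right (amgm (X := X) (A := A) (A' := A') hlam) hD
  have e1 : (lam / 2 * (X ^ 2 * A' ^ 2) + 1 / (2 * lam) * A ^ 2) * D =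
      1 / 2 * (lam * (X ^ 2 * (A' ^ 2 * D))) + 1 / (2 * lam) * (A ^ 2 * D) := by ring
  rw [e1] at hAM
  have t7 : 0 ≤ A ^ 2 * D := by positivity
  by_cases hg : good
  · obtain ⟨a1, a2, a3, a4⟩ := h2 hg
    by_cases hx : |x - u| ≤ B'
    · by_cases hlo : c' * Real.exp x ≤ X
      · by_cases hhi : X ≤ M' * Real.exp x
        · rw [if_pos ⟨hg, hx, hlo, hhi⟩]
          have := hS hg hx hlo hhi
          linarith
        · -- high
          push Not at hhi
          have e2 : Real.exp (k * x) = Real.exp ((k - 1) * x) * Real.exp x := by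
            rw [← Real.exp_add]; congr 1; ring
          have p1 := Real.exp_pos x
          have p2 := Real.exp_pos ((k - 1) * x)
          have h5 : X * (A * A') ≤ 16 / M' * (X ^ 2 * A' ^ 2) := by
            have h6 : Real.exp x ≤ X / M' := by
              rw [le_div_iff₀ hM']; linarith
            calc X * (A * A') ≤ X * ((4 * (Real.exp ((k - 1) * x) * Real.exp x)) * A') := by
                  rw [← e2]; gcongr
              _ ≤ X * ((4 * ((4 * A') * (X / M'))) * A') := by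
                  gcongr
                  linarith
              _ = _ := by ring
          have h7 := mul_le_mul_of_nonneg_right h5 hD
          have e3 : 16 / M' * (X ^ 2 * A' ^ 2) * D = 16 / M' * (X ^ 2 * (A' ^ 2 * D)) := by ring
          linarith
      · push Not at hlo
        have e2 : Real.exp ((k - 1) * x) * Real.exp x = Real.exp (k * x) := by
          rw [← Real.exp_add]; congr 1; ring
        have p1 := Real.exp_pos x
        have p2 := Real.exp_pos ((k - 1) * x)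
        have h5 : X * (A * A') ≤ 16 * c' * A ^ 2 := by
          calc X * (A * A') ≤ (c' * Real.exp x) * (A * (4 * Real.exp ((k - 1) * x))) := by gcongr
            _ = 4 * c' * A * (Real.exp ((k - 1) * x) * Real.exp x) := by ring
            _ = 4 * c' * A * Real.exp (k * x) := by rw [e2]
            _ ≤ 4 * c' * A * (4 * A) := by gcongr; linarith
            _ = 16 * c' * A ^ 2 := by ring
        have h7 := mul_le_mul_of_nonneg_right h5 hD
        have e3 : 16 * c' * A ^ 2 * D = 16 * c' * (A ^ 2 * D) := by ring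
        linarith
    · push Not at hx
      have h5 : 1 / (2 * lam) * (A ^ 2 * D) ≤ 1 / (2 * lam * B' ^ 2) * ((x - u) ^ 2 * (A ^ 2 * D)) := by
        have h6 : B' ^ 2 ≤ (x - u) ^ 2 := by
          rw [← sq_abs (x - u)]
          exact pow_le_pow_left₀ hB'.le hx.le 2
        calc 1 / (2 * lam) * (A ^ 2 * D) = 1 / (2 * lam * B' ^ 2) * (B' ^ 2 * (A ^ 2 * D)) := by field_simp
          _ ≤ _ := by gcongr
      linarith
  · have h5 := h1 hg
    have h6 : 1 / (2 * lam) * (A ^ 2 * D) ≤ 1 / (2 * lam) * (bad * (A ^ 2 * D)) := by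
      refine mul_le_mul_of_nonneg_left ?_ (by positivity)
      nlinarith
    linarith

open Classical in
/-- the version with the sign -/
lemma pws {X Y A A' D : ℝ} (hX : 0 ≤ X) (hA : 0 ≤ A) (hA' : 0 ≤ A') (hD : 0 ≤ D) {x u k lam B' c' M' G bad : ℝ}
    (hlam : 0 < lam) (hB' : 0 < B') (hc' : 0 < c') (hM' : 0 < M') (hG : 0 ≤ G) (hbad : 0 ≤ bad) {good sg : Prop}
    (hY : Y ≤ X) (hsg : ¬ sg → Y = 0) (h1 : ¬ good → 1 ≤ bad)
    (h2 : good → Real.exp (k * x) / 4 ≤ A ∧ A ≤ 4 * Real.exp (k * x) ∧ Real.exp ((k - 1) * x) / 4 ≤ A' ∧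
      A' ≤ 4 * Real.exp ((k - 1) * x))
    (hS : good → |x - u| ≤ B' → c' * Real.exp x ≤ X → X ≤ M' * Real.exp x → X * (A * A') * D ≤ G) :
    Y * (A * A') * D ≤
      (if (good ∧ |x - u| ≤ B' ∧ c' * Real.exp x ≤ X ∧ X ≤ M' * Real.exp x) ∧ sg then G else 0) +
      (lam + 16 / M') * (X ^ 2 * (A' ^ 2 * D)) + 1 / (2 * lam) * (bad * (A ^ 2 * D)) +
      1 / (2 * lam * B' ^ 2) * ((x - u) ^ 2 * (A ^ 2 * D)) + 16 * c' * (A ^ 2 * D) := by
  by_cases hs : sg
  · have h3 := pw4 hX hA hA' hD hlam hB' hc' hM' hG hbad h1 h2 hS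
    have h4 : Y * (A * A') * D ≤ X * (A * A') * D := by gcongr
    simp only [hs, and_true]
    exact h4.trans h3
  · rw [hsg hs]
    have t1 : 0 ≤ (lam + 16 / M') * (X ^ 2 * (A' ^ 2 * D)) := by positivity
    have t2 : 0 ≤ 1 / (2 * lam) * (bad * (A ^ 2 * D)) := by positivity
    have t3 : 0 ≤ 1 / (2 * lam * B' ^ 2) * ((x - u) ^ 2 * (A ^ 2 * D)) := by positivity
    have t4 : 0 ≤ 16 * c' * (A ^ 2 * D) := by positivity
    simp only [hs, and_false, if_false]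
    linarith

/-- the set where Hardy's function has the sign `σ` -/
def Sg (σ : ℝ) : Set ℝ := {t | 0 < σ * Zr t}

lemma Sg_meas (hZ : Continuous Zr) (σ : ℝ) : MeasurableSet (Sg σ) :=
  measurableSet_lt measurable_const (hZ.measurable.const_mul σ)

lemma Yle {σ : ℝ} (hσ : σ = 1 ∨ σ = -1) (hZ : ∀ t, |Zr t| = Xz t) (t : ℝ) :
    max (σ * Zr t) 0 ≤ Xz t ∧ max (σ * Zr t) 0 = 1 / 2 * (Xz t + σ * Zr t) := by
  have h1 := hZ t
  rcases hσ with rfl | rfl
  · rcases le_total 0 (Zr t) with h | h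
    · rw [abs_of_nonneg h] at h1
      rw [one_mul, max_eq_left h, ← h1]
      exact ⟨le_rfl, by ring⟩
    · rw [abs_of_nonpos h] at h1
      rw [one_mul, max_eq_right h, ← h1]
      exact ⟨by linarith, by ring⟩
  · rcases le_total 0 (Zr t) with h | h
    · rw [abs_of_nonneg h] at h1
      rw [max_eq_right (by linarith), ← h1]
      exact ⟨h, by ring⟩
    · rw [abs_of_nonpos h] at h1
      rw [max_eq_left (by linarith), ← h1]
      exact ⟨by linarith, by ring⟩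

lemma iX {κ : ℕ} {T : ℝ} (hδ : 0 < (κ:ℝ) / T) {F G : ℝ → ℝ} {C : ℝ} (hG : Continuous G) (hGX : ∀ t, |G t| ≤ Xz t)
    (hF : Continuous F) (hC : ∀ t, |F t| ≤ C) :
    IntegrableOn (fun t => om κ (κ / T) t * (G t * F t)) (Set.Ioi 0) := by
  have hC0 : 0 ≤ C := (abs_nonneg _).trans (hC 0)
  have i1 : IntegrableOn (fun t => om κ (κ / T) t * C) (Set.Ioi 0) := (om_int0 κ hδ).mul_const C
  have i2 : IntegrableOn (fun t => wz κ T t * C) (Set.Ioi 0) :=
    wz_int κ hδ continuous_const (C := C) fun t => by rw [abs_of_nonneg hC0]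
  have hm : Measurable fun t => om κ (κ / T) t * (G t * F t) := by
    refine Measurable.mul ?_ (hG.mul hF).measurable
    exact (Pool.Agent.H262R4.TM.TTW.om_cont κ _).measurable
  refine (i1.add i2).mono' hm.aestronglyMeasurable ?_
  refine (ae_restrict_iff' measurableSet_Ioi).mpr (Eventually.of_forall fun t ht => ?_)
  have hom : 0 ≤ om κ (κ / T) t := om_nn κ hδ (le_of_lt ht)
  have hX := Xz_nonneg t
  have e3 : wz κ T t = om κ (κ / T) t * Xz t ^ 2 := rfl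
  rw [Real.norm_eq_abs, abs_mul, abs_of_nonneg hom, abs_mul, Pi.add_apply, e3]
  have h1 : |G t| * |F t| ≤ (1 + Xz t ^ 2) * C := by
    refine mul_le_mul ((hGX t).trans ?_) (hC t) (abs_nonneg _) (by positivity)
    nlinarith [sq_nonneg (Xz t - 1)]
  calc om κ (κ / T) t * (|G t| * |F t|) ≤ om κ (κ / T) t * ((1 + Xz t ^ 2) * C) := by gcongr
    _ = _ := by ring

theorem int_keys (hPT : P_PT) (hZR : P_ZR) {σ : ℝ} (hσ : σ = 1 ∨ σ = -1) {n Rs J : ℕ} {I : ℕ → Finset ℕ}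
    (hI : ∀ i, ∀ p ∈ I i, p.Prime) (hn : 1 ≤ n)
    (hRs : 1 ≤ Rs) {κ : ℕ} {T : ℝ} (hδ : 0 < (κ:ℝ) / T) {u k lam B' c' M' : ℝ} (hk : |k| + 1 ≤ n)
    (hlam : 0 < lam) (hB' : 0 < B') (hc' : 0 < c') (hM' : 0 < M') :
    ∫ t in Set.Ioi (0:ℝ), om κ (κ / T) t * (max (σ * Zr t) 0 *
        (‖AQ n Rs J k (zz I t)‖ * ‖AQ n Rs J (k - 1) (zz I t)‖ * ‖DK n Rs J hh u (zz I t)‖ ^ 2)) ≤
      (256 * M' * Real.exp (2 * k * u + 2 * |k| * B')) *
        (∫ t in Set.Ioi (0:ℝ) ∩ (SS Rs J I u B' c' M' ∩ Sg σ), om κ (κ / T) t) +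
      (lam + 16 / M') * (∫ t in Set.Ioi (0:ℝ), wz κ T t * AQD n Rs J I (k - 1) u t) +
      1 / (2 * lam) * (∑ i ∈ range J, ∫ t in Set.Ioi (0:ℝ), om κ (κ / T) t *
        ((‖zz I t i‖ / RR Rs i) ^ (2 * RR Rs i) * AQD n Rs J I k u t)) +
      1 / (2 * lam * B' ^ 2) * (∫ t in Set.Ioi (0:ℝ), om κ (κ / T) t * ((xx I J t - u) ^ 2 * AQD n Rs J I k u t)) +
      16 * c' * (∫ t in Set.Ioi (0:ℝ), om κ (κ / T) t * AQD n Rs J I k u t) := by
  classical
  obtain ⟨hZ1, hZ2, hZ3⟩ := hZR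
  have hhc : Continuous hh := by unfold hh; fun_prop
  obtain ⟨_, cD, cz, Bz, hBz⟩ := hPT.1 n Rs J I k u hh hI hhc
  obtain ⟨cA, Bk, hBk⟩ := AQ_cont hPT (n := n) (Rs := Rs) (J := J) hI k
  obtain ⟨cA', Bm, hBm⟩ := AQ_cont hPT (n := n) (Rs := Rs) (J := J) hI (k - 1)
  have cx := xx_cont (J := J) cz
  have cAD : Continuous (AQD n Rs J I k u) := by
    unfold AQD; exact (cA.pow 2).mul (cD.norm.pow 2)
  have cAD' : Continuous (AQD n Rs J I (k - 1) u) := by
    unfold AQD; exact (cA'.pow 2).mul (cD.norm.pow 2)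
  have AD0 : ∀ a t, 0 ≤ AQD n Rs J I a u t := fun a t => by unfold AQD; positivity
  have bAD : ∀ t, AQD n Rs J I k u t ≤ Bk ^ 2 * Bz ^ 2 := fun t => by
    unfold AQD
    have h1 := hBk t
    have h2 := (hBz t).2.1
    gcongr
  have bAD' : ∀ t, AQD n Rs J I (k - 1) u t ≤ Bm ^ 2 * Bz ^ 2 := fun t => by
    unfold AQD
    have h1 := hBm t
    have h2 := (hBz t).2.1
    gcongr
  have hz0 : ∀ t, ∀ i < J, ‖zz I t i‖ ≤ |Bz| := fun t i hi => ((hBz t).2.2 i hi).trans (le_abs_self _)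
  have bx : ∀ t, |xx I J t| ≤ J * |Bz| := fun t => by
    unfold xx
    refine (abs_sum_le_sum_abs _ _).trans ?_
    refine (sum_le_sum (g := fun _ => |Bz|) fun i hi =>
      (Complex.abs_re_le_norm _).trans (hz0 t i (mem_range.mp hi))).trans ?_
    simp
  -- integrability
  have iom : IntegrableOn (fun t => om κ (κ / T) t) (Set.Ioi 0) := om_int0 _ hδ
  have iF : ∀ {F : ℝ → ℝ} {C : ℝ}, Continuous F → (∀ t, |F t| ≤ C) →
      IntegrableOn (fun t => om κ (κ / T) t * F t) (Set.Ioi 0) := by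
    intro F C hF hC
    refine iom.mul_bdd (c := C) hF.aestronglyMeasurable (Eventually.of_forall fun t => ?_)
    rw [Real.norm_eq_abs]; exact hC t
  have j1 : IntegrableOn (fun t => wz κ T t * AQD n Rs J I (k - 1) u t) (Set.Ioi 0) :=
    wz_int κ hδ cAD' (C := Bm ^ 2 * Bz ^ 2) fun t => by rw [abs_of_nonneg (AD0 _ _)]; exact bAD' t
  have j4 : IntegrableOn (fun t => om κ (κ / T) t * AQD n Rs J I k u t) (Set.Ioi 0) :=
    iF cAD (C := Bk ^ 2 * Bz ^ 2) fun t => by rw [abs_of_nonneg (AD0 _ _)]; exact bAD t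
  have j3 : IntegrableOn (fun t => om κ (κ / T) t * ((xx I J t - u) ^ 2 * AQD n Rs J I k u t)) (Set.Ioi 0) := by
    refine iF (((cx.sub continuous_const).pow 2).mul cAD) (C := (J * |Bz| + |u|) ^ 2 * (Bk ^ 2 * Bz ^ 2)) fun t => ?_
    rw [abs_of_nonneg (mul_nonneg (sq_nonneg _) (AD0 _ _)), ← sq_abs (xx I J t - u)]
    have h1 : |xx I J t - u| ≤ J * |Bz| + |u| := (abs_sub _ _).trans (by linarith [bx t])
    exact mul_le_mul (pow_le_pow_left₀ (abs_nonneg _) h1 2) (bAD t) (AD0 _ _) (by positivity)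
  have j2 : ∀ i ∈ range J, IntegrableOn (fun t => om κ (κ / T) t *
      ((‖zz I t i‖ / RR Rs i) ^ (2 * RR Rs i) * AQD n Rs J I k u t)) (Set.Ioi 0) := by
    intro i hi
    refine iF ((((cz i).norm.div_const _).pow _).mul cAD)
      (C := (|Bz| / RR Rs i) ^ (2 * RR Rs i) * (Bk ^ 2 * Bz ^ 2)) fun t => ?_
    rw [abs_of_nonneg (mul_nonneg (by positivity) (AD0 _ _))]
    have h1 := hz0 t i (mem_range.mp hi)
    exact mul_le_mul (by gcongr) (bAD t) (AD0 _ _) (by positivity)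
  have hSm := (SS_meas (Rs := Rs) (J := J) cz u B' c' M').inter (Sg_meas hZ3 σ)
  set G : ℝ := 256 * M' * Real.exp (2 * k * u + 2 * |k| * B') with hG
  have hG0 : 0 ≤ G := by positivity
  have j0 : IntegrableOn (fun t => (SS Rs J I u B' c' M' ∩ Sg σ).indicator (fun t => om κ (κ / T) t) t)
      (Set.Ioi 0) := iom.indicator hSm
  -- the pointwise bound
  have hpt : ∀ t ∈ Set.Ioi (0:ℝ), om κ (κ / T) t * (max (σ * Zr t) 0 *
        (‖AQ n Rs J k (zz I t)‖ * ‖AQ n Rs J (k - 1) (zz I t)‖ * ‖DK n Rs J hh u (zz I t)‖ ^ 2)) ≤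
      G * (SS Rs J I u B' c' M' ∩ Sg σ).indicator (fun t => om κ (κ / T) t) t +
      (lam + 16 / M') * (wz κ T t * AQD n Rs J I (k - 1) u t) +
      1 / (2 * lam) * (∑ i ∈ range J, om κ (κ / T) t *
        ((‖zz I t i‖ / RR Rs i) ^ (2 * RR Rs i) * AQD n Rs J I k u t)) +
      1 / (2 * lam * B' ^ 2) * (om κ (κ / T) t * ((xx I J t - u) ^ 2 * AQD n Rs J I k u t)) +
      16 * c' * (om κ (κ / T) t * AQD n Rs J I k u t) := by
    intro t ht
    have hom : 0 ≤ om κ (κ / T) t := om_nn κ hδ (le_of_lt ht)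
    have habs : |k| ≤ n := by linarith
    have habs' : |k - 1| ≤ n := (abs_sub _ _).trans (by simpa using hk)
    have h1 := pws (X := Xz t) (Y := max (σ * Zr t) 0) (A := ‖AQ n Rs J k (zz I t)‖)
      (A' := ‖AQ n Rs J (k - 1) (zz I t)‖)
      (D := ‖DK n Rs J hh u (zz I t)‖ ^ 2) (Xz_nonneg t) (norm_nonneg _) (norm_nonneg _) (by positivity)
      (x := xx I J t) (u := u) (k := k) hlam hB' hc' hM' hG0 (bd_nonneg Rs J I t) (good := gd Rs J I t)
      (sg := t ∈ Sg σ) (Yle hσ hZ2 t).1 (fun h => max_eq_right (not_lt.mp h))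
      (fun h => bd_one hRs h) (fun hg => by
        have b1 := AQ_pt hPT hn hRs hg habs
        have b2 := AQ_pt hPT hn hRs hg habs'
        exact ⟨b1.1, b1.2, b2.1, b2.2⟩) (fun hg hx _ hhi => by
        have b1 := (AQ_pt hPT hn hRs hg habs).2
        have b2 := (AQ_pt hPT hn hRs hg habs').2
        have b3 := (hPT.2 n Rs J (zz I t) hn hRs hg).2 u
        change ‖AQ n Rs J k (zz I t)‖ ≤ 4 * Real.exp (k * xx I J t) at b1
        change ‖AQ n Rs J (k - 1) (zz I t)‖ ≤ 4 * Real.exp ((k - 1) * xx I J t) at b2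
        have b4 : ‖DK n Rs J hh u (zz I t)‖ ^ 2 ≤ 16 := by
          have := pow_le_pow_left₀ (norm_nonneg _) b3 2
          linarith
        calc Xz t * (‖AQ n Rs J k (zz I t)‖ * ‖AQ n Rs J (k - 1) (zz I t)‖) * ‖DK n Rs J hh u (zz I t)‖ ^ 2 ≤
            (M' * Real.exp (xx I J t)) * ((4 * Real.exp (k * xx I J t)) * (4 * Real.exp ((k - 1) * xx I J t))) * 16 := by
              gcongr
          _ = 256 * M' * (Real.exp (xx I J t) * Real.exp (k * xx I J t) * Real.exp ((k - 1) * xx I J t)) := by ring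
          _ = 256 * M' * Real.exp (2 * k * xx I J t) := by
              rw [← Real.exp_add, ← Real.exp_add]; congr 2; ring
          _ ≤ G := by
              rw [hG]
              refine mul_le_mul_of_nonneg_left (Real.exp_le_exp.mpr ?_) (by positivity)
              have h5 : k * (xx I J t - u) ≤ |k| * B' := by
                refine (le_abs_self _).trans ?_
                rw [abs_mul]
                exact mul_le_mul_of_nonneg_left hx (abs_nonneg _)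
              linarith)
    have h2 := mul_le_mul_of_nonneg_left h1 hom
    refine (le_of_eq ?_).trans (h2.trans (le_of_eq ?_))
    · ring
    have e2 : om κ (κ / T) t * (if (gd Rs J I t ∧ |xx I J t - u| ≤ B' ∧ c' * Real.exp (xx I J t) ≤ Xz t ∧
        Xz t ≤ M' * Real.exp (xx I J t)) ∧ t ∈ Sg σ then G else 0) =
        G * (SS Rs J I u B' c' M' ∩ Sg σ).indicator (fun t => om κ (κ / T) t) t := by
      by_cases hS : (gd Rs J I t ∧ |xx I J t - u| ≤ B' ∧ c' * Real.exp (xx I J t) ≤ Xz t ∧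
          Xz t ≤ M' * Real.exp (xx I J t)) ∧ t ∈ Sg σ
      · have hS' : t ∈ SS Rs J I u B' c' M' ∩ Sg σ := hS
        rw [Set.indicator_of_mem hS', if_pos hS]; ring
      · have hS' : t ∉ SS Rs J I u B' c' M' ∩ Sg σ := hS
        rw [Set.indicator_of_notMem hS', if_neg hS]; ring
    have e3 : wz κ T t = om κ (κ / T) t * Xz t ^ 2 := rfl
    have e4 : ∑ i ∈ range J, om κ (κ / T) t * ((‖zz I t i‖ / RR Rs i) ^ (2 * RR Rs i) * AQD n Rs J I k u t) =
        om κ (κ / T) t * (bd Rs J I t * AQD n Rs J I k u t) := by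
      unfold bd
      rw [sum_mul, mul_sum]
    rw [mul_add, mul_add, mul_add, mul_add, e2, e3, e4]
    unfold AQD
    ring
  have i1 := j0.const_mul G
  have i2 := j1.const_mul (lam + 16 / M')
  have i3 := (integrable_finsetSum _ j2).const_mul (1 / (2 * lam))
  have i4 := j3.const_mul (1 / (2 * lam * B' ^ 2))
  have i5 := j4.const_mul (16 * c')
  have hle := integral_mono_of_nonneg (μ := volume.restrict (Set.Ioi (0:ℝ)))
    (f := fun t => om κ (κ / T) t * (max (σ * Zr t) 0 *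
        (‖AQ n Rs J k (zz I t)‖ * ‖AQ n Rs J (k - 1) (zz I t)‖ * ‖DK n Rs J hh u (zz I t)‖ ^ 2)))
    ((ae_restrict_iff' measurableSet_Ioi).mpr (Eventually.of_forall fun t ht => by
      have hom : 0 ≤ om κ (κ / T) t := om_nn κ hδ (le_of_lt ht)
      have : 0 ≤ max (σ * Zr t) 0 := le_max_right _ _
      simp only [Pi.zero_apply]
      positivity)) ((((i1.add i2).add i3).add i4).add i5)
    ((ae_restrict_iff' measurableSet_Ioi).mpr (Eventually.of_forall fun t ht => by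
      simpa only [Pi.add_apply] using hpt t ht))
  refine hle.trans (le_of_eq ?_)
  rw [integral_add' (((i1.add i2).add i3).add i4) i5, integral_add' ((i1.add i2).add i3) i4,
    integral_add' (i1.add i2) i3, integral_add' i1 i2, integral_const_mul, integral_const_mul, integral_const_mul,
    integral_const_mul, integral_const_mul, integral_finsetSum _ j2, setIntegral_indicator hSm]

/-- the lower bound for the mean of the absolute value -/
theorem low_X (hPT : P_PT) {n Rs J : ℕ} {I : ℕ → Finset ℕ}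
    (hI : ∀ i, ∀ p ∈ I i, p.Prime) (hn : 1 ≤ n)
    (hRs : 1 ≤ Rs) {κ : ℕ} {T : ℝ} (hδ : 0 < (κ:ℝ) / T) {u k lam : ℝ} (hk : |k| + 1 ≤ n) (hlam : 0 < lam) :
    (∫ t in Set.Ioi (0:ℝ), ((om κ (κ / T) t : ℝ) : ℂ) * (riemannZeta (cl t) *
          (starRingEnd ℂ (AZ n Rs J k (zz I t)) * AZ n Rs J (k - 1) (zz I t) *
            ((‖DK n Rs J hh u (zz I t)‖ ^ 2 : ℝ) : ℂ)))).re ≤
      64 * (∫ t in Set.Ioi (0:ℝ), om κ (κ / T) t * (Xz t *
        (‖AQ n Rs J k (zz I t)‖ * ‖AQ n Rs J (k - 1) (zz I t)‖ * ‖DK n Rs J hh u (zz I t)‖ ^ 2))) +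
      lam / 2 * (∫ t in Set.Ioi (0:ℝ), wz κ T t * AD n Rs J I (k - 1) u t) +
      1 / (2 * lam) * (∑ i ∈ range J, ∫ t in Set.Ioi (0:ℝ), om κ (κ / T) t *
        ((‖zz I t i‖ / RR Rs i) ^ (2 * RR Rs i) * AD n Rs J I k u t)) := by
  have hhc : Continuous hh := by unfold hh; fun_prop
  obtain ⟨cZ, cD, cz, Bz, hBz⟩ := hPT.1 n Rs J I k u hh hI hhc
  obtain ⟨cZ', _, _, By, hBy⟩ := hPT.1 n Rs J I (k - 1) u hh hI hhc
  obtain ⟨cA, Bk, hBk⟩ := AQ_cont hPT (n := n) (Rs := Rs) (J := J) hI k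
  obtain ⟨cA', Bm, hBm⟩ := AQ_cont hPT (n := n) (Rs := Rs) (J := J) hI (k - 1)
  have cAD : Continuous (AD n Rs J I k u) := by
    unfold AD; exact (cZ.norm.pow 2).mul (cD.norm.pow 2)
  have cAD' : Continuous (AD n Rs J I (k - 1) u) := by
    unfold AD; exact (cZ'.norm.pow 2).mul (cD.norm.pow 2)
  have AD0 : ∀ a t, 0 ≤ AD n Rs J I a u t := fun a t => by unfold AD; positivity
  have bAD : ∀ t, AD n Rs J I k u t ≤ Bz ^ 2 * Bz ^ 2 := fun t => by
    unfold AD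
    have h1 := (hBz t).1
    have h2 := (hBz t).2.1
    gcongr
  have bAD' : ∀ t, AD n Rs J I (k - 1) u t ≤ By ^ 2 * By ^ 2 := fun t => by
    unfold AD
    have h1 := (hBy t).1
    have h2 := (hBy t).2.1
    gcongr
  have hz0 : ∀ t, ∀ i < J, ‖zz I t i‖ ≤ |Bz| := fun t i hi => ((hBz t).2.2 i hi).trans (le_abs_self _)
  have iom : IntegrableOn (fun t => om κ (κ / T) t) (Set.Ioi 0) := om_int0 _ hδ
  have iF : ∀ {F : ℝ → ℝ} {C : ℝ}, Continuous F → (∀ t, |F t| ≤ C) →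
      IntegrableOn (fun t => om κ (κ / T) t * F t) (Set.Ioi 0) := by
    intro F C hF hC
    refine iom.mul_bdd (c := C) hF.aestronglyMeasurable (Eventually.of_forall fun t => ?_)
    rw [Real.norm_eq_abs]; exact hC t
  have j1 : IntegrableOn (fun t => wz κ T t * AD n Rs J I (k - 1) u t) (Set.Ioi 0) :=
    wz_int κ hδ cAD' (C := By ^ 2 * By ^ 2) fun t => by rw [abs_of_nonneg (AD0 _ _)]; exact bAD' t
  have j2 : ∀ i ∈ range J, IntegrableOn (fun t => om κ (κ / T) t *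
      ((‖zz I t i‖ / RR Rs i) ^ (2 * RR Rs i) * AD n Rs J I k u t)) (Set.Ioi 0) := by
    intro i hi
    refine iF ((((cz i).norm.div_const _).pow _).mul cAD)
      (C := (|Bz| / RR Rs i) ^ (2 * RR Rs i) * (Bz ^ 2 * Bz ^ 2)) fun t => ?_
    rw [abs_of_nonneg (mul_nonneg (by positivity) (AD0 _ _))]
    have h1 := hz0 t i (mem_range.mp hi)
    exact mul_le_mul (by gcongr) (bAD t) (AD0 _ _) (by positivity)
  have j0 : IntegrableOn (fun t => om κ (κ / T) t * (Xz t *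
        (‖AQ n Rs J k (zz I t)‖ * ‖AQ n Rs J (k - 1) (zz I t)‖ * ‖DK n Rs J hh u (zz I t)‖ ^ 2)))
        (Set.Ioi 0) := by
    refine iX hδ Xz_cont (fun t => by rw [abs_of_nonneg (Xz_nonneg t)]) ((cA.mul cA').mul (cD.norm.pow 2))
      (C := Bk * Bm * Bz ^ 2) fun t => ?_
    have h1 := hBk t
    have h2 := hBm t
    have h3 := (hBz t).2.1
    have h4 : 0 ≤ Bk := (norm_nonneg _).trans h1
    have h5 : 0 ≤ Bm := (norm_nonneg _).trans h2
    rw [abs_of_nonneg (by positivity)]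
    gcongr
  have hpt : ∀ t ∈ Set.Ioi (0:ℝ), ‖((om κ (κ / T) t : ℝ) : ℂ) * (riemannZeta (cl t) *
          (starRingEnd ℂ (AZ n Rs J k (zz I t)) * AZ n Rs J (k - 1) (zz I t) *
            ((‖DK n Rs J hh u (zz I t)‖ ^ 2 : ℝ) : ℂ)))‖ ≤
      64 * (om κ (κ / T) t * (Xz t *
        (‖AQ n Rs J k (zz I t)‖ * ‖AQ n Rs J (k - 1) (zz I t)‖ * ‖DK n Rs J hh u (zz I t)‖ ^ 2))) +
      lam / 2 * (wz κ T t * AD n Rs J I (k - 1) u t) +
      1 / (2 * lam) * (∑ i ∈ range J, om κ (κ / T) t *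
        ((‖zz I t i‖ / RR Rs i) ^ (2 * RR Rs i) * AD n Rs J I k u t)) := by
    intro t ht
    have hom : 0 ≤ om κ (κ / T) t := om_nn κ hδ (le_of_lt ht)
    have habs : |k| ≤ n := by linarith
    have habs' : |k - 1| ≤ n := (abs_sub _ _).trans (by simpa using hk)
    have hX := Xz_nonneg t
    have e1 : ‖((om κ (κ / T) t : ℝ) : ℂ) * (riemannZeta (cl t) *
          (starRingEnd ℂ (AZ n Rs J k (zz I t)) * AZ n Rs J (k - 1) (zz I t) *
            ((‖DK n Rs J hh u (zz I t)‖ ^ 2 : ℝ) : ℂ)))‖ =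
        om κ (κ / T) t * (Xz t * (‖AZ n Rs J k (zz I t)‖ * ‖AZ n Rs J (k - 1) (zz I t)‖) *
          ‖DK n Rs J hh u (zz I t)‖ ^ 2) := by
      rw [norm_mul, norm_mul, norm_mul, norm_mul, RCLike.norm_conj, Complex.norm_real, Complex.norm_real,
        Real.norm_of_nonneg hom, Real.norm_of_nonneg (by positivity)]
      unfold Xz; ring
    have e3 : wz κ T t = om κ (κ / T) t * Xz t ^ 2 := rfl
    have e4 : ∑ i ∈ range J, om κ (κ / T) t * ((‖zz I t i‖ / RR Rs i) ^ (2 * RR Rs i) * AD n Rs J I k u t) =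
        om κ (κ / T) t * (bd Rs J I t * AD n Rs J I k u t) := by
      unfold bd
      rw [sum_mul, mul_sum]
    rw [e1, e3, e4]
    have n1 : 0 ≤ 64 * (om κ (κ / T) t * (Xz t *
        (‖AQ n Rs J k (zz I t)‖ * ‖AQ n Rs J (k - 1) (zz I t)‖ * ‖DK n Rs J hh u (zz I t)‖ ^ 2))) := by positivity
    have n2 : 0 ≤ lam / 2 * (om κ (κ / T) t * Xz t ^ 2 * AD n Rs J I (k - 1) u t) := by
      have := AD0 (k - 1) t
      positivity
    have n3 : 0 ≤ 1 / (2 * lam) * (om κ (κ / T) t * (bd Rs J I t * AD n Rs J I k u t)) := by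
      have := AD0 k t
      have := bd_nonneg Rs J I t
      positivity
    by_cases hg : gd Rs J I t
    · have a1 := (AQ_pt hPT hn hRs hg habs).1
      have a2 := (AQ_pt hPT hn hRs hg habs').1
      have a3 := ((hPT.2 n Rs J (zz I t) hn hRs hg).1 k habs).2
      have a4 := ((hPT.2 n Rs J (zz I t) hn hRs hg).1 (k - 1) habs').2
      have h1 : ‖AZ n Rs J k (zz I t)‖ * ‖AZ n Rs J (k - 1) (zz I t)‖ ≤
          64 * (‖AQ n Rs J k (zz I t)‖ * ‖AQ n Rs J (k - 1) (zz I t)‖) := by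
        calc ‖AZ n Rs J k (zz I t)‖ * ‖AZ n Rs J (k - 1) (zz I t)‖ ≤
            (2 * Real.exp (k * ∑ i ∈ range J, (zz I t i).re)) *
              (2 * Real.exp ((k - 1) * ∑ i ∈ range J, (zz I t i).re)) := by gcongr
          _ = 64 * ((Real.exp (k * ∑ i ∈ range J, (zz I t i).re) / 4) *
              (Real.exp ((k - 1) * ∑ i ∈ range J, (zz I t i).re) / 4)) := by ring
          _ ≤ _ := by gcongr
      have h2 : om κ (κ / T) t * (Xz t * (‖AZ n Rs J k (zz I t)‖ * ‖AZ n Rs J (k - 1) (zz I t)‖) *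
          ‖DK n Rs J hh u (zz I t)‖ ^ 2) ≤ 64 * (om κ (κ / T) t * (Xz t *
        (‖AQ n Rs J k (zz I t)‖ * ‖AQ n Rs J (k - 1) (zz I t)‖ * ‖DK n Rs J hh u (zz I t)‖ ^ 2))) := by
        calc _ ≤ om κ (κ / T) t * (Xz t * (64 * (‖AQ n Rs J k (zz I t)‖ * ‖AQ n Rs J (k - 1) (zz I t)‖)) *
            ‖DK n Rs J hh u (zz I t)‖ ^ 2) := by gcongr
          _ = _ := by ring
      linarith
    · have h5 := bd_one hRs hg
      have h3 := mul_le_mul_of_nonneg_right (amgm (X := Xz t) (A := ‖AZ n Rs J k (zz I t)‖)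
        (A' := ‖AZ n Rs J (k - 1) (zz I t)‖) hlam) (sq_nonneg ‖DK n Rs J hh u (zz I t)‖)
      have h4 := mul_le_mul_of_nonneg_left h3 hom
      have e5 : om κ (κ / T) t * ((lam / 2 * (Xz t ^ 2 * ‖AZ n Rs J (k - 1) (zz I t)‖ ^ 2) +
          1 / (2 * lam) * ‖AZ n Rs J k (zz I t)‖ ^ 2) * ‖DK n Rs J hh u (zz I t)‖ ^ 2) =
          lam / 2 * (om κ (κ / T) t * Xz t ^ 2 * AD n Rs J I (k - 1) u t) +
            1 / (2 * lam) * (om κ (κ / T) t * (1 * AD n Rs J I k u t)) := by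
        unfold AD; ring
      rw [e5] at h4
      have h6 : 1 / (2 * lam) * (om κ (κ / T) t * (1 * AD n Rs J I k u t)) ≤
          1 / (2 * lam) * (om κ (κ / T) t * (bd Rs J I t * AD n Rs J I k u t)) := by
        have := AD0 k t
        gcongr
      linarith
  refine (Complex.re_le_norm _).trans ((norm_integral_le_integral_norm _).trans ?_)
  have i1 := j0.const_mul 64
  have i2 := j1.const_mul (lam / 2)
  have i3 := (integrable_finsetSum _ j2).const_mul (1 / (2 * lam))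
  have hle := integral_mono_of_nonneg (μ := volume.restrict (Set.Ioi (0:ℝ)))
    (Eventually.of_forall fun t => norm_nonneg _) ((i1.add i2).add i3)
    ((ae_restrict_iff' measurableSet_Ioi).mpr (Eventually.of_forall fun t ht => by
      simpa only [Pi.add_apply] using hpt t ht))
  refine hle.trans (le_of_eq ?_)
  rw [integral_add' (i1.add i2) i3, integral_add' i1 i2, integral_const_mul, integral_const_mul, integral_const_mul,
    integral_finsetSum _ j2]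

/-- the part with one sign -/
theorem half_Y (hPT : P_PT) (hZR : P_ZR) {σ : ℝ} (hσ : σ = 1 ∨ σ = -1) {n Rs J : ℕ} {I : ℕ → Finset ℕ}
    (hI : ∀ i, ∀ p ∈ I i, p.Prime) {κ : ℕ} {T : ℝ} (hδ : 0 < (κ:ℝ) / T) {u k ε : ℝ}
    (h : |∫ t in Set.Ioi (0:ℝ), om κ (κ / T) t * (Zr t *
        (‖AQ n Rs J k (zz I t)‖ * ‖AQ n Rs J (k - 1) (zz I t)‖ * ‖DK n Rs J hh u (zz I t)‖ ^ 2))| ≤ ε) :
    1 / 2 * (∫ t in Set.Ioi (0:ℝ), om κ (κ / T) t * (Xz t *
        (‖AQ n Rs J k (zz I t)‖ * ‖AQ n Rs J (k - 1) (zz I t)‖ * ‖DK n Rs J hh u (zz I t)‖ ^ 2))) - 1 / 2 * ε ≤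
    ∫ t in Set.Ioi (0:ℝ), om κ (κ / T) t * (max (σ * Zr t) 0 *
        (‖AQ n Rs J k (zz I t)‖ * ‖AQ n Rs J (k - 1) (zz I t)‖ * ‖DK n Rs J hh u (zz I t)‖ ^ 2)) := by
  obtain ⟨hZ1, hZ2, hZ3⟩ := hZR
  have hhc : Continuous hh := by unfold hh; fun_prop
  obtain ⟨_, cD, cz, Bz, hBz⟩ := hPT.1 n Rs J I k u hh hI hhc
  obtain ⟨cA, Bk, hBk⟩ := AQ_cont hPT (n := n) (Rs := Rs) (J := J) hI k
  obtain ⟨cA', Bm, hBm⟩ := AQ_cont hPT (n := n) (Rs := Rs) (J := J) hI (k - 1)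
  set F : ℝ → ℝ := fun t =>
    ‖AQ n Rs J k (zz I t)‖ * ‖AQ n Rs J (k - 1) (zz I t)‖ * ‖DK n Rs J hh u (zz I t)‖ ^ 2 with hF
  have cF : Continuous F := (cA.mul cA').mul (cD.norm.pow 2)
  have bF : ∀ t, |F t| ≤ Bk * Bm * Bz ^ 2 := by
    intro t
    have h1 := hBk t
    have h2 := hBm t
    have h3 := (hBz t).2.1
    have h4 : 0 ≤ Bk := (norm_nonneg _).trans h1
    have h5 : 0 ≤ Bm := (norm_nonneg _).trans h2
    simp only [hF]
    rw [abs_of_nonneg (by positivity)]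
    gcongr
  have j1 : IntegrableOn (fun t => om κ (κ / T) t * (Xz t * F t)) (Set.Ioi 0) :=
    iX hδ Xz_cont (fun t => by rw [abs_of_nonneg (Xz_nonneg t)]) cF bF
  have j2 : IntegrableOn (fun t => om κ (κ / T) t * (Zr t * F t)) (Set.Ioi 0) :=
    iX hδ hZ3 (fun t => (hZ2 t).le) cF bF
  have e1 : ∫ t in Set.Ioi (0:ℝ), om κ (κ / T) t * (max (σ * Zr t) 0 * F t) =
      1 / 2 * (∫ t in Set.Ioi (0:ℝ), om κ (κ / T) t * (Xz t * F t)) +
        σ / 2 * ∫ t in Set.Ioi (0:ℝ), om κ (κ / T) t * (Zr t * F t) := by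
    rw [← integral_const_mul, ← integral_const_mul, ← integral_add (j1.const_mul _) (j2.const_mul _)]
    congr 1
    funext t
    rw [(Yle hσ hZ2 t).2]
    ring
  change |∫ t in Set.Ioi (0:ℝ), om κ (κ / T) t * (Zr t * F t)| ≤ ε at h
  change 1 / 2 * (∫ t in Set.Ioi (0:ℝ), om κ (κ / T) t * (Xz t * F t)) - 1 / 2 * ε ≤
    ∫ t in Set.Ioi (0:ℝ), om κ (κ / T) t * (max (σ * Zr t) 0 * F t)
  rw [e1]
  obtain ⟨h1, h2⟩ := abs_le.mp h
  rcases hσ with rfl | rfl
  · linarith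
  · linarith

end

end Pool.Agent.TH806.LS
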